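import Mathlib

set_option autoImplicit false

/-!
# The numerical conditions for large outdegree
-/

namespace Pool.Agent.Lib_MP_e12783_co

open Filter Topology

/-- polynomial times `2 ^ (-c d)` tends to zero -/
theorem eventually_poly_le (C c : ℝ) (hc : 0 < c) :
    ∀ᶠ d : ℕ in atTop, C * (d : ℝ) ^ 5 ≤ (2 : ℝ) ^ (c * d) := by
  set q : ℝ := (2 : ℝ) ^ (-c) with hq
  have hq0 : 0 < q := Real.rpow_pos_of_pos two_pos _
  have hq1 : |q| < 1 := by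
    rw [abs_of_pos hq0, hq]
    exact Real.rpow_lt_one_of_one_lt_of_neg one_lt_two (by linarith)
  have ht := tendsto_pow_const_mul_const_pow_of_abs_lt_one 5 hq1
  have ht2 : Tendsto (fun n : ℕ => C * ((n : ℝ) ^ 5 * q ^ n)) atTop (𝓝 (C * 0)) :=
    ht.const_mul _
  rw [mul_zero] at ht2
  have hev : ∀ᶠ n : ℕ in atTop, C * ((n : ℝ) ^ 5 * q ^ n) < 1 :=
    ht2.eventually (gt_mem_nhds one_pos)
  filter_upwards [hev] with d hd
  have h1 : q ^ d = ((2 : ℝ) ^ (c * d))⁻¹ := by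
    rw [hq, ← Real.rpow_natCast, ← Real.rpow_mul two_pos.le, neg_mul, Real.rpow_neg two_pos.le]
  have h2 : (0 : ℝ) < (2 : ℝ) ^ (c * d) := Real.rpow_pos_of_pos two_pos _
  rw [h1, ← mul_assoc, mul_inv_lt_iff₀ h2, one_mul] at hd
  exact hd.le

/-- All numerical conditions hold for large `d`. -/
theorem exists_params (ε : ℝ) (h0 : 0 < ε) (h1 : ε < 1) :
    ∃ r : ℕ, 3 ≤ r ∧ ∃ d0 : ℕ, ∀ d ≥ d0, ∃ σ m : ℕ, 1 ≤ σ ∧ 1 ≤ m ∧ 2 * r * σ < d ∧
      (2 : ℝ) ^ (ε ^ 2 * d / 100) ≤ m ∧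
      (∀ h : ℕ, (h : ℝ) < (2 : ℝ) ^ ((1 - ε) * d) →
        (2 * h) ^ r < (2 ^ (r - 1)) ^ (d - 2 * r * σ)) ∧
      ∀ ℓ : ℕ, 1 ≤ ℓ → (d : ℝ) ^ ℓ ≤ (2 : ℝ) ^ (ε ^ 2 * d / 1000) →
        ℓ ≤ d ∧ 16 * (r + 1) * (3 * m * (ℓ * (d + ℓ) ^ ℓ)) * d * σ ^ 2 * (σ + 1) ≤ 2 ^ σ := by
  set r := ⌈4 / ε⌉₊ with hr
  have hε4 : 4 < 4 / ε := by rw [lt_div_iff₀ h0]; linarith
  have hr4 : (4 : ℝ) / ε ≤ r := Nat.le_ceil _
  have hr5 : (r : ℝ) ≤ 5 / ε := by
    have h2 : (r : ℝ) < 4 / ε + 1 := Nat.ceil_lt_add_one (by positivity)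
    have h3 : 1 ≤ 1 / ε := by rw [le_div_iff₀ h0]; linarith
    have h4 : 4 / ε + 1 / ε = 5 / ε := by rw [← add_div]; norm_num
    linarith
  have hr3 : 3 ≤ r := by
    have : (3 : ℝ) ≤ r := by linarith
    exact_mod_cast this
  have hrpos : (0 : ℝ) < r := by linarith
  have hεr : 4 ≤ ε * r := by
    have := mul_le_mul_of_nonneg_left hr4 h0.le
    rwa [mul_div_cancel₀ _ h0.ne'] at this
  have hεr5 : ε * r ≤ 5 := by
    have := mul_le_mul_of_nonneg_left hr5 h0.le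
    rwa [mul_div_cancel₀ _ h0.ne'] at this
  refine ⟨r, hr3, ?_⟩
  have hεsq : 0 < ε ^ 2 := by positivity
  have hev1 := eventually_poly_le (192 * (r + 1)) (ε ^ 2 * (21 / 2000))
    (by positivity)
  obtain ⟨D, hD⟩ := eventually_atTop.mp hev1
  set E : ℕ := ⌈1000 / ε ^ 2⌉₊ with hE
  refine ⟨max D E, ?_⟩
  intro d hd
  have hdD : D ≤ d := le_trans (le_max_left _ _) hd
  have hdE : (1000 : ℝ) / ε ^ 2 ≤ d := by
    have h2 : (1000 : ℝ) / ε ^ 2 ≤ E := Nat.le_ceil _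
    have h3 : (E : ℝ) ≤ d := by exact_mod_cast le_trans (le_max_right _ _) hd
    linarith
  have hεd : 1000 ≤ ε ^ 2 * d := by
    have := mul_le_mul_of_nonneg_left hdE hεsq.le
    rwa [mul_div_cancel₀ _ hεsq.ne'] at this
  have hdpos : (0 : ℝ) < d := by
    by_contra hcon
    push Not at hcon
    nlinarith
  have hεd1 : 1000 ≤ ε * d := by
    have : ε ^ 2 * d ≤ ε * d := by
      have : ε ^ 2 ≤ ε := by nlinarith
      exact mul_le_mul_of_nonneg_right this hdpos.le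
    linarith
  have hd1000 : (1000 : ℝ) ≤ d := by
    have : ε * d ≤ 1 * d := mul_le_mul_of_nonneg_right h1.le hdpos.le
    linarith
  set σ := ⌊ε * d / (8 * r)⌋₊ with hσ
  have hσle : (σ : ℝ) ≤ ε * d / (8 * r) := Nat.floor_le (by positivity)
  have hσlt : ε * d / (8 * r) < σ + 1 := Nat.lt_floor_add_one _
  have hbig : ε ^ 2 * d / 40 ≤ ε * d / (8 * r) := by
    rw [div_le_div_iff₀ (by norm_num) (by positivity)]
    have : ε ^ 2 * d * (8 * r) = 8 * (ε * d) * (ε * r) := by ring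
    rw [this]
    have h2 : 8 * (ε * d) * (ε * r) ≤ 8 * (ε * d) * 5 :=
      mul_le_mul_of_nonneg_left hεr5 (by positivity)
    linarith
  have hσ1 : 1 ≤ σ := by
    have : (0 : ℝ) < σ := by linarith
    exact_mod_cast this
  have hrσ : (2 * r * σ : ℝ) ≤ ε * d / 4 := by
    have h2 : (2 * r : ℝ) * σ ≤ 2 * r * (ε * d / (8 * r)) :=
      mul_le_mul_of_nonneg_left hσle (by positivity)
    have h3 : 2 * (r : ℝ) * (ε * d / (8 * r)) = ε * d / 4 := by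
      field_simp
      norm_num
    linarith
  have hrσd : 2 * r * σ < d := by
    have : (2 * r * σ : ℝ) < d := by
      have : ε * d ≤ 1 * d := mul_le_mul_of_nonneg_right h1.le hdpos.le
      linarith
    exact_mod_cast this
  have hσd : σ ≤ d := by
    have : σ ≤ 2 * r * σ := Nat.le_mul_of_pos_left _ (by omega)
    omega
  set τ := σ / 2 with hτ
  have hτreal : ε ^ 2 * d / 80 - 1 ≤ τ := by
    have h2 : σ ≤ 2 * τ + 1 := by omega
    have h3 : (σ : ℝ) ≤ 2 * τ + 1 := by exact_mod_cast h2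
    linarith
  refine ⟨σ, 2 ^ τ, hσ1, Nat.one_le_two_pow, hrσd, ?_, ?_, ?_⟩
  · push_cast
    rw [← Real.rpow_natCast 2 τ]
    exact Real.rpow_le_rpow_of_exponent_le one_le_two (by linarith)
  · intro h hh
    have hexp : (r : ℝ) * ((1 - ε) * d + 1) ≤ ((r - 1 : ℕ) : ℝ) * ((d - 2 * r * σ : ℕ) : ℝ) := by
      rw [Nat.cast_sub hrσd.le, Nat.cast_sub (by omega : 1 ≤ r)]
      push_cast
      have h2 : (1 - ε / 4) * d ≤ d - 2 * r * σ := by linarith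
      have h3 : (r : ℝ) * (1 - ε / 4) ≤ r - 1 := by linarith
      have h4 : (0 : ℝ) ≤ r - 1 := by linarith
      have h5 : (r : ℝ) * ((1 - ε / 4) * ((1 - ε / 4) * d)) ≤ (r - 1) * (d - 2 * r * σ) := by
        calc (r : ℝ) * ((1 - ε / 4) * ((1 - ε / 4) * d))
            = (r * (1 - ε / 4)) * ((1 - ε / 4) * d) := by ring
          _ ≤ (r - 1) * ((1 - ε / 4) * d) := by
              refine mul_le_mul_of_nonneg_right h3 ?_
              exact mul_nonneg (by linarith) hdpos.le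
          _ ≤ _ := mul_le_mul_of_nonneg_left h2 h4
      refine le_trans ?_ h5
      refine mul_le_mul_of_nonneg_left ?_ hrpos.le
      nlinarith
    have h2 : ((2 * h : ℕ) : ℝ) < (2 : ℝ) ^ ((1 - ε) * d + 1) := by
      rw [Real.rpow_add two_pos, Real.rpow_one]
      push_cast
      linarith
    have h3 : (((2 * h) ^ r : ℕ) : ℝ) < (((2 ^ (r - 1)) ^ (d - 2 * r * σ) : ℕ) : ℝ) := by
      push_cast
      push_cast at h2
      calc (2 * (h : ℝ)) ^ r < ((2 : ℝ) ^ ((1 - ε) * d + 1)) ^ r :=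
            pow_lt_pow_left₀ h2 (by positivity) (by omega)
        _ = (2 : ℝ) ^ ((r : ℝ) * ((1 - ε) * d + 1)) := by
            rw [← Real.rpow_natCast, ← Real.rpow_mul two_pos.le, mul_comm]
        _ ≤ (2 : ℝ) ^ (((r - 1 : ℕ) : ℝ) * ((d - 2 * r * σ : ℕ) : ℝ)) :=
            Real.rpow_le_rpow_of_exponent_le one_le_two hexp
        _ = (2 ^ (r - 1)) ^ (d - 2 * r * σ) := by
            rw [← pow_mul, ← Real.rpow_natCast]
            push_cast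
            rfl
    exact_mod_cast h3
  · intro ℓ hℓ hdℓ
    have hd2 : (2 : ℝ) ≤ d := by linarith
    have hℓd : ℓ ≤ d := by
      have h2 : (2 : ℝ) ^ (ℓ : ℝ) ≤ (2 : ℝ) ^ (ε ^ 2 * d / 1000) := by
        rw [Real.rpow_natCast]
        exact (pow_le_pow_left₀ two_pos.le hd2 ℓ).trans hdℓ
      have h3 : (ℓ : ℝ) ≤ ε ^ 2 * d / 1000 :=
        (Real.rpow_le_rpow_left_iff one_lt_two).mp h2
      have h4 : ε ^ 2 * d ≤ 1 * d := mul_le_mul_of_nonneg_right (by nlinarith) hdpos.le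
      have h5 : (ℓ : ℝ) ≤ d := by linarith
      exact_mod_cast h5
    refine ⟨hℓd, ?_⟩
    -- reduce to real numbers
    have hpow2 : ((d + ℓ : ℕ) : ℝ) ^ ℓ ≤ (2 : ℝ) ^ (ε ^ 2 * d / 500) := by
      have h2 : ((d + ℓ : ℕ) : ℝ) ≤ (d : ℝ) ^ 2 := by
        push_cast
        have : (ℓ : ℝ) ≤ d := by exact_mod_cast hℓd
        nlinarith
      calc ((d + ℓ : ℕ) : ℝ) ^ ℓ ≤ ((d : ℝ) ^ 2) ^ ℓ := pow_le_pow_left₀ (by positivity) h2 ℓ
        _ = ((d : ℝ) ^ ℓ) ^ 2 := by rw [← pow_mul, ← pow_mul, mul_comm]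
        _ ≤ ((2 : ℝ) ^ (ε ^ 2 * d / 1000)) ^ 2 := pow_le_pow_left₀ (by positivity) hdℓ 2
        _ = (2 : ℝ) ^ (ε ^ 2 * d / 500) := by
            rw [← Real.rpow_natCast, ← Real.rpow_mul two_pos.le]
            congr 1
            push_cast
            ring
    have hfin : (192 * ((r : ℝ) + 1)) * (d : ℝ) ^ 5 * (2 : ℝ) ^ (ε ^ 2 * d / 500) ≤ 2 * 2 ^ τ := by
      have h2 := hD d hdD
      have h3 : (0 : ℝ) < (2 : ℝ) ^ (ε ^ 2 * d / 500) := Real.rpow_pos_of_pos two_pos _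
      calc (192 * ((r : ℝ) + 1)) * (d : ℝ) ^ 5 * (2 : ℝ) ^ (ε ^ 2 * d / 500)
          ≤ (2 : ℝ) ^ (ε ^ 2 * (21 / 2000) * d) * (2 : ℝ) ^ (ε ^ 2 * d / 500) :=
            mul_le_mul_of_nonneg_right h2 h3.le
        _ = (2 : ℝ) ^ (ε ^ 2 * d / 80) := by
            rw [← Real.rpow_add two_pos]
            congr 1
            ring
        _ ≤ (2 : ℝ) ^ ((τ : ℝ) + 1) :=
            Real.rpow_le_rpow_of_exponent_le one_le_two (by linarith)
        _ = 2 * 2 ^ τ := by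
            rw [Real.rpow_add two_pos, Real.rpow_one, Real.rpow_natCast, mul_comm]
    have hreal : ((16 * (r + 1) * (3 * 2 ^ τ * (ℓ * (d + ℓ) ^ ℓ)) * d * σ ^ 2 * (σ + 1) : ℕ) : ℝ) ≤
        ((2 ^ σ : ℕ) : ℝ) := by
      have hℓ' : (ℓ : ℝ) ≤ d := by exact_mod_cast hℓd
      have hσ' : (σ : ℝ) ≤ d := by exact_mod_cast hσd
      have hσ2 : (σ : ℝ) + 1 ≤ 2 * d := by linarith
      have hp : (0 : ℝ) ≤ ((d + ℓ : ℕ) : ℝ) ^ ℓ := by positivity
      have hr1 : (0 : ℝ) ≤ (r : ℝ) + 1 := by positivity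
      push_cast
      push_cast at hpow2 hp
      calc 16 * ((r : ℝ) + 1) * (3 * 2 ^ τ * ((ℓ : ℝ) * ((d : ℝ) + ℓ) ^ ℓ)) * d * (σ : ℝ) ^ 2 *
            ((σ : ℝ) + 1)
          ≤ 16 * ((r : ℝ) + 1) * (3 * 2 ^ τ * ((d : ℝ) * ((d : ℝ) + ℓ) ^ ℓ)) * d * (d : ℝ) ^ 2 *
            (2 * d) := by
            gcongr
        _ = ((96 * ((r : ℝ) + 1)) * (d : ℝ) ^ 5 * ((d : ℝ) + ℓ) ^ ℓ) * 2 ^ τ := by ring
        _ ≤ ((96 * ((r : ℝ) + 1)) * (d : ℝ) ^ 5 * (2 : ℝ) ^ (ε ^ 2 * d / 500)) * 2 ^ τ := by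
            gcongr
        _ ≤ 2 ^ τ * 2 ^ τ := by
            refine mul_le_mul_of_nonneg_right ?_ (by positivity)
            nlinarith [hfin]
        _ = 2 ^ (2 * τ) := by rw [← pow_add]; congr 1; ring
        _ ≤ 2 ^ σ := pow_le_pow_right₀ one_le_two (by omega)
    exact_mod_cast hreal

end Pool.Agent.Lib_MP_e12783_co
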