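import Mathlib
import Pool.Agent.Lib_MP_626dc7_co.LLL

set_option autoImplicit false

/-!
# Colourings through the local lemma

`F j` (`j ∈ J`) are `d`-element sets, every point in at most `Δ` of them.  If
`4 d Δ r B ≤ r ^ d`, where `B = ∑_{i < s} C(d, i) (r - 1) ^ (d - i)`, then some colouring of the points
with `r` colours has at least `s` points of each colour in every `F j`.
-/

namespace Pool.Agent.Lib_MP_e12783_co

open Finset Pool.Agent.Lib_MP_626dc7_co

/-- `∑_{i < s} C(d, i) (r - 1) ^ (d - i)`: the number of words of length `d` over an alphabet of `r`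
letters in which a given letter occurs fewer than `s` times. -/
def few (r s d : ℕ) : ℕ := ∑ i ∈ range s, d.choose i * (r - 1) ^ (d - i)

variable {C : Type*} [Fintype C] [DecidableEq C]

/-- Number of functions on a finite type with fewer than `s` values `b`. -/
theorem card_few (T : Type*) [Fintype T] [DecidableEq T] (b : C) (s : ℕ) :
    ((univ : Finset (T → C)).filter
      (fun g => (univ.filter (fun x => g x = b)).card < s)).card ≤
      few (Fintype.card C) s (Fintype.card T) := by
  classical
  have hsub : (univ : Finset (T → C)).filter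
      (fun g => (univ.filter (fun x => g x = b)).card < s) ⊆
      (range s).biUnion (fun i => (powersetCard i (univ : Finset T)).biUnion (fun A =>
        Fintype.piFinset (fun x => if x ∈ A then {b} else (univ : Finset C).erase b))) := by
    intro g hg
    rw [mem_filter] at hg
    refine mem_biUnion.mpr ⟨_, mem_range.mpr hg.2, ?_⟩
    refine mem_biUnion.mpr ⟨univ.filter (fun x => g x = b), ?_, ?_⟩
    · exact mem_powersetCard.mpr ⟨subset_univ _, rfl⟩
    · rw [Fintype.mem_piFinset]
      intro x
      by_cases hx : g x = b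
      · have hx' : x ∈ univ.filter (fun x => g x = b) := mem_filter.mpr ⟨mem_univ _, hx⟩
        rw [if_pos hx']
        exact mem_singleton.mpr hx
      · have hx' : x ∉ univ.filter (fun x => g x = b) := fun h => hx (mem_filter.mp h).2
        rw [if_neg hx']
        exact mem_erase.mpr ⟨hx, mem_univ _⟩
  refine (card_le_card hsub).trans (card_biUnion_le.trans ?_)
  unfold few
  refine sum_le_sum (fun i _ => ?_)
  refine card_biUnion_le.trans ?_
  have : ∀ A ∈ powersetCard i (univ : Finset T),
      (Fintype.piFinset (fun x => if x ∈ A then {b} else (univ : Finset C).erase b)).card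
        = (Fintype.card C - 1) ^ (Fintype.card T - i) := by
    intro A hA
    rw [mem_powersetCard] at hA
    rw [Fintype.card_piFinset]
    have h1 : ∀ x : T, (if x ∈ A then {b} else (univ : Finset C).erase b).card
        = if x ∈ A then 1 else Fintype.card C - 1 := by
      intro x
      split_ifs with h
      · exact card_singleton b
      · rw [card_erase_of_mem (mem_univ _), card_univ]
    rw [prod_congr rfl (fun x _ => h1 x), prod_ite, prod_const, prod_const, one_pow, one_mul]
    congr 1
    rw [filter_not, card_sdiff_of_subset (filter_subset _ _), card_univ]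
    congr 1
    rw [← hA.2]
    congr 1
    ext x
    simp
  rw [sum_congr rfl this, sum_const, smul_eq_mul, card_powersetCard, card_univ]

variable {J V : Type*} [Fintype J] [DecidableEq J] [Fintype V] [DecidableEq V]

/-- A colouring overwritten on the finite set `T` by `g`. -/
def ovw (T : Finset V) (c : V → C) (g : T → C) : V → C :=
  fun v => if h : v ∈ T then g ⟨v, h⟩ else c v

omit [Fintype C] [DecidableEq C] [Fintype V] in
theorem ovw_of_mem {T : Finset V} (c : V → C) (g : T → C) {v : V} (h : v ∈ T) :
    ovw T c g v = g ⟨v, h⟩ := by simp [ovw, h]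

omit [Fintype C] [DecidableEq C] [Fintype V] in
theorem ovw_of_not_mem {T : Finset V} (c : V → C) (g : T → C) {v : V} (h : v ∉ T) :
    ovw T c g v = c v := by simp [ovw, h]

/-- the colourings which have fewer than `s` points of some colour in `T` -/
def bad (s : ℕ) (T : Finset V) : Finset (V → C) :=
  univ.filter (fun c => ∃ b : C, (T.filter (fun u => c u = b)).card < s)

theorem bad_ovw (s : ℕ) {T : Finset V} (c : V → C) :
    ((univ : Finset (T → C)).filter (fun g => ovw T c g ∈ bad s T)).card ≤
      Fintype.card C * few (Fintype.card C) s T.card := by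
  classical
  have hsub : (univ : Finset (T → C)).filter (fun g => ovw T c g ∈ bad s T) ⊆
      (univ : Finset C).biUnion (fun b => (univ : Finset (T → C)).filter
        (fun g => (univ.filter (fun x => g x = b)).card < s)) := by
    intro g hg
    rw [mem_filter, bad, mem_filter] at hg
    obtain ⟨-, -, b, hb⟩ := hg
    have hcard : (univ.filter (fun x : T => g x = b)).card
        = (T.filter (fun u => ovw T c g u = b)).card := by
      refine card_bij (fun x _ => (x : V)) ?_ ?_ ?_
      · intro x hx
        refine mem_filter.mpr ⟨x.2, ?_⟩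
        rw [ovw_of_mem c g x.2]
        exact (mem_filter.mp hx).2
      · intro x _ y _ h
        exact Subtype.ext h
      · intro u hu
        rw [mem_filter] at hu
        refine ⟨⟨u, hu.1⟩, mem_filter.mpr ⟨mem_univ _, ?_⟩, rfl⟩
        rw [← ovw_of_mem c g hu.1]
        exact hu.2
    rw [← hcard] at hb
    exact mem_biUnion.mpr ⟨b, mem_univ _, mem_filter.mpr ⟨mem_univ _, hb⟩⟩
  calc _ ≤ _ := card_le_card hsub
    _ ≤ _ := card_biUnion_le
    _ ≤ ∑ _b : C, few (Fintype.card C) s (Fintype.card T) :=
        sum_le_sum (fun b _ => card_few T b s)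
    _ = Fintype.card C * few (Fintype.card C) s T.card := by
        rw [sum_const, smul_eq_mul, card_univ, Fintype.card_coe]

/-- Switching: if `A` is closed under overwriting on `T`, then `bad s T` has conditional probability
at most `r B / r ^ |T|` in `A`. -/
theorem bad_dep (s : ℕ) (T : Finset V) (A : Finset (V → C))
    (hA : ∀ c ∈ A, ∀ g : T → C, ovw T c g ∈ A) :
    (A ∩ bad s T).card * Fintype.card C ^ T.card ≤
      Fintype.card C * few (Fintype.card C) s T.card * A.card := by
  classical
  let P : Finset ((V → C) × (T → C)) :=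
    (A ×ˢ (univ : Finset (T → C))).filter (fun p => ovw T p.1 p.2 ∈ bad s T)
  have h1 : P.card ≤ Fintype.card C * few (Fintype.card C) s T.card * A.card := by
    have : P.card = ∑ c ∈ A, ((univ : Finset (T → C)).filter
        (fun g => ovw T c g ∈ bad s T)).card := by
      have hP : P = (A.sigma (fun c => (univ : Finset (T → C)).filter
          (fun g => ovw T c g ∈ bad s T))).image (fun p => (p.1, p.2)) := by
        ext ⟨c, g⟩
        simp only [P, mem_filter, mem_product, mem_univ, and_true, mem_image, mem_sigma, true_and,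
          Prod.mk.injEq]
        constructor
        · rintro ⟨h1, h2⟩
          exact ⟨⟨c, g⟩, ⟨h1, h2⟩, rfl, rfl⟩
        · rintro ⟨⟨c', g'⟩, ⟨h1, h2⟩, rfl, rfl⟩
          exact ⟨h1, h2⟩
      rw [hP, card_image_of_injective, card_sigma]
      rintro ⟨c, g⟩ ⟨c', g'⟩ h
      simp only [Prod.mk.injEq] at h
      obtain ⟨rfl, rfl⟩ := h
      rfl
    rw [this]
    calc _ ≤ ∑ c ∈ A, Fintype.card C * few (Fintype.card C) s T.card :=
          sum_le_sum (fun c _ => bad_ovw s c)
      _ = _ := by rw [sum_const, smul_eq_mul, mul_comm]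
  have h2 : ((A ∩ bad s T) ×ˢ (univ : Finset (T → C))).card ≤ P.card := by
    refine card_le_card_of_injOn (fun p => (ovw T p.1 p.2, fun x => p.1 x)) ?_ ?_
    · intro p hp
      have hp := mem_coe.mp hp
      rw [mem_product, mem_inter] at hp
      refine mem_coe.mpr (mem_filter.mpr ⟨mem_product.mpr ⟨hA _ hp.1.1 _, mem_univ _⟩, ?_⟩)
      have : ovw T (ovw T p.1 p.2) (fun x => p.1 x) = p.1 := by
        funext v
        by_cases hv : v ∈ T
        · rw [ovw_of_mem _ _ hv]
        · rw [ovw_of_not_mem _ _ hv, ovw_of_not_mem _ _ hv]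
      change ovw T (ovw T p.1 p.2) (fun x => p.1 x) ∈ bad s T
      rw [this]
      exact hp.1.2
    · rintro ⟨c, g⟩ _ ⟨c', g'⟩ _ h
      simp only [Prod.mk.injEq] at h
      obtain ⟨h1, h2⟩ := h
      have hc : c = c' := by
        funext v
        by_cases hv : v ∈ T
        · exact congrFun h2 ⟨v, hv⟩
        · have := congrFun h1 v
          rwa [ovw_of_not_mem _ _ hv, ovw_of_not_mem _ _ hv] at this
      have hg : g = g' := by
        funext x
        have := congrFun h1 x
        rwa [ovw_of_mem _ _ x.2, ovw_of_mem _ _ x.2] at this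
      rw [hc, hg]
  rw [card_product] at h2
  have h3 : (univ : Finset (T → C)).card = Fintype.card C ^ T.card := by
    rw [card_univ, Fintype.card_fun, Fintype.card_coe]
  rw [h3] at h2
  exact h2.trans h1

theorem exists_coloring [Nonempty C] (F : J → Finset V) (s d Δ : ℕ) (hd1 : 1 ≤ d)
    (hF : ∀ j, (F j).card = d)
    (hΔ : ∀ u, (univ.filter (fun j => u ∈ F j)).card ≤ Δ)
    (hd : 4 * (d * Δ) * (Fintype.card C * few (Fintype.card C) s d) ≤ Fintype.card C ^ d) :
    ∃ c : V → C, ∀ j, ∀ b : C, s ≤ ((F j).filter (fun u => c u = b)).card := by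
  classical
  rcases isEmpty_or_nonempty J with hJ | ⟨⟨j0⟩⟩
  · exact ⟨fun _ => Classical.arbitrary C, fun j => (hJ.false j).elim⟩
  have hΔ1 : 1 ≤ Δ := by
    have hne : (F j0).Nonempty := card_pos.mp (by rw [hF]; exact hd1)
    obtain ⟨u, hu⟩ := hne
    refine le_trans (card_pos.mpr ⟨j0, mem_filter.mpr ⟨mem_univ _, hu⟩⟩) (hΔ u)
  rcases Nat.eq_zero_or_pos (Fintype.card C * few (Fintype.card C) s d) with h0 | hpos
  · -- no bad colouring at all
    refine ⟨fun _ => Classical.arbitrary C, fun j b => ?_⟩
    by_contra hlt
    have hbad : (fun _ => Classical.arbitrary C : V → C) ∈ (bad s (F j) : Finset (V → C)) := by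
      rw [bad, mem_filter]
      exact ⟨mem_univ _, b, by omega⟩
    have := bad_dep s (F j) (univ : Finset (V → C)) (fun c _ g => mem_univ _)
    rw [hF, h0, zero_mul, univ_inter] at this
    have h1 : 0 < (bad s (F j) : Finset (V → C)).card := card_pos.mpr ⟨_, hbad⟩
    have h2 : 0 < Fintype.card C ^ d := pow_pos Fintype.card_pos _
    have := Nat.mul_pos h1 h2
    omega
  let N : J → Finset J := fun j => (F j).biUnion (fun u => univ.filter (fun j' => u ∈ F j'))
  have hN : ∀ j ∈ (univ : Finset J), (N j).card ≤ d * Δ := by
    intro j _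
    calc (N j).card ≤ ∑ u ∈ F j, (univ.filter (fun j' => u ∈ F j')).card := card_biUnion_le
      _ ≤ ∑ _u ∈ F j, Δ := sum_le_sum (fun u _ => hΔ u)
      _ = d * Δ := by rw [sum_const, smul_eq_mul, hF]
  have hdΔ : 1 ≤ d * Δ := Nat.one_le_iff_ne_zero.mpr (by positivity)
  obtain ⟨c, -, hc⟩ := lopsided_lll (univ : Finset (V → C)) univ_nonempty
    (fun j => bad s (F j)) (univ : Finset J) N (4 * (d * Δ)) (d * Δ) (by omega) hN le_rfl (by
      intro j _ S _ hS
      have hA : ∀ c ∈ avoid (univ : Finset (V → C)) (fun j => bad s (F j)) S, ∀ g : F j → C,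
          ovw (F j) c g ∈ avoid (univ : Finset (V → C)) (fun j => bad s (F j)) S := by
        intro c hc g
        rw [mem_avoid] at hc ⊢
        refine ⟨mem_univ _, fun i hi hbad => hc.2 i hi ?_⟩
        -- F i is disjoint from F j
        have hdisj : ∀ u ∈ F i, u ∉ F j := by
          intro u hu hu'
          refine (disjoint_left.mp hS hi) ?_
          exact mem_biUnion.mpr ⟨u, hu', mem_filter.mpr ⟨mem_univ _, hu⟩⟩
        rw [bad, mem_filter] at hbad ⊢
        obtain ⟨-, b, hb⟩ := hbad
        refine ⟨mem_univ _, b, ?_⟩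
        have : (F i).filter (fun u => ovw (F j) c g u = b) = (F i).filter (fun u => c u = b) := by
          refine filter_congr ?_
          intro u hu
          rw [ovw_of_not_mem _ _ (hdisj u hu)]
        rwa [this] at hb
      have key := bad_dep s (F j) _ hA
      rw [hF] at key
      set a := (avoid (univ : Finset (V → C)) (fun j => bad s (F j)) S ∩ bad s (F j)).card
      set e := (avoid (univ : Finset (V → C)) (fun j => bad s (F j)) S).card
      set w := Fintype.card C * few (Fintype.card C) s d
      have h1 : w * (a * (4 * (d * Δ))) ≤ w * e := by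
        calc w * (a * (4 * (d * Δ))) = a * (4 * (d * Δ) * w) := by ring
          _ ≤ a * Fintype.card C ^ d := Nat.mul_le_mul_left _ hd
          _ ≤ _ := key
      exact Nat.le_of_mul_le_mul_left h1 hpos)
  refine ⟨c, fun j b => ?_⟩
  by_contra hlt
  refine hc j (mem_univ _) ?_
  rw [bad, mem_filter]
  exact ⟨mem_univ _, b, by omega⟩

end Pool.Agent.Lib_MP_e12783_co
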