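import Mathlib
import Pool.Agent.Lib_MP_e12783_co.Color

set_option autoImplicit false

/-!
# The numerical condition holds for all large `d`
-/

namespace Pool.Agent.Lib_MP_e12783_co

open Finset Filter Topology

theorem few_le (r s d : ℕ) (hr : 2 ≤ r) (hd : 1 ≤ d) :
    few r s d ≤ s * d ^ s * (r - 1) ^ d := by
  unfold few
  have h : ∀ i ∈ range s, d.choose i * (r - 1) ^ (d - i) ≤ d ^ s * (r - 1) ^ d := by
    intro i hi
    have h1 : d.choose i ≤ d ^ s :=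
      (Nat.choose_le_pow d i).trans (Nat.pow_le_pow_right hd (mem_range.mp hi).le)
    have h2 : (r - 1) ^ (d - i) ≤ (r - 1) ^ d :=
      Nat.pow_le_pow_right (by omega) (Nat.sub_le _ _)
    exact Nat.mul_le_mul h1 h2
  calc _ ≤ ∑ _i ∈ range s, d ^ s * (r - 1) ^ d := sum_le_sum h
    _ = s * d ^ s * (r - 1) ^ d := by rw [sum_const, card_range, smul_eq_mul, mul_assoc]

theorem exists_large (r s K p : ℕ) (hr : 2 ≤ r) :
    ∃ D : ℕ, ∀ d ≥ D, K * d ^ p * (r * few r s d) ≤ r ^ d := by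
  have hr' : (0 : ℝ) < r := by positivity
  set q : ℝ := ((r - 1 : ℕ) : ℝ) / r with hq
  have hq1 : |q| < 1 := by
    rw [abs_of_nonneg (by positivity), hq, div_lt_one hr']
    exact_mod_cast (by omega : r - 1 < r)
  have ht := tendsto_pow_const_mul_const_pow_of_abs_lt_one (s + p) hq1
  have ht2 : Tendsto (fun n : ℕ => (K * r * s : ℝ) * ((n : ℝ) ^ (s + p) * q ^ n)) atTop
      (𝓝 ((K * r * s : ℝ) * 0)) := ht.const_mul _
  rw [mul_zero] at ht2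
  have hev : ∀ᶠ n : ℕ in atTop, (K * r * s : ℝ) * ((n : ℝ) ^ (s + p) * q ^ n) < 1 :=
    ht2.eventually (gt_mem_nhds one_pos)
  obtain ⟨D, hD⟩ := eventually_atTop.mp (hev.and (eventually_ge_atTop 1))
  refine ⟨D, fun d hdD => ?_⟩
  obtain ⟨hd, hd1⟩ := hD d hdD
  have h1 : (K * d ^ p * (r * few r s d) : ℕ) ≤ K * d ^ p * (r * (s * d ^ s * (r - 1) ^ d)) :=
    Nat.mul_le_mul_left _ (Nat.mul_le_mul_left _ (few_le r s d hr hd1))
  refine h1.trans ?_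
  have h2 : ((K * d ^ p * (r * (s * d ^ s * (r - 1) ^ d)) : ℕ) : ℝ) ≤ (r ^ d : ℕ) := by
    push_cast
    have h3 : (K * r * s : ℝ) * ((d : ℝ) ^ (s + p) * q ^ d) * r ^ d
        = K * d ^ p * (r * (s * d ^ s * ((r - 1 : ℕ) : ℝ) ^ d)) := by
      rw [hq, div_pow, pow_add]
      field_simp
    rw [← h3]
    have h4 : (0 : ℝ) < (r : ℝ) ^ d := by positivity
    nlinarith
  exact_mod_cast h2

/-- The condition with the factor `(d + ℓ) ^ ℓ`. -/
theorem exists_large' (r s ℓ m : ℕ) (hr : 2 ≤ r) :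
    ∃ D : ℕ, ∀ d ≥ D, 24 * m * ℓ * (d + ℓ) ^ ℓ * d ^ 3 * (r * few r s d) ≤ r ^ d := by
  obtain ⟨D, hD⟩ := exists_large r s (24 * m * ℓ * 2 ^ ℓ) (ℓ + 3) hr
  refine ⟨max D ℓ, fun d hd => ?_⟩
  refine le_trans ?_ (hD d (le_trans (le_max_left _ _) hd))
  have hdℓ : ℓ ≤ d := le_trans (le_max_right _ _) hd
  have h1 : (d + ℓ) ^ ℓ ≤ (2 * d) ^ ℓ := Nat.pow_le_pow_left (by omega) ℓ
  calc 24 * m * ℓ * (d + ℓ) ^ ℓ * d ^ 3 * (r * few r s d)
      ≤ 24 * m * ℓ * (2 * d) ^ ℓ * d ^ 3 * (r * few r s d) := by gcongr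
    _ = 24 * m * ℓ * 2 ^ ℓ * d ^ (ℓ + 3) * (r * few r s d) := by
        rw [mul_pow, pow_add]
        ring

end Pool.Agent.Lib_MP_e12783_co
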