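import Mathlib

set_option autoImplicit false

/-!
# Bounded-load assignments (a max-flow statement, through Hall's theorem)

`N j` (`j ∈ J`) is a finite family of finite sets.  If for all `X ⊆ J` and `Y ⊆ V`
`d |X| ≤ ∑_{j ∈ X} |N j \ Y| + Δ |Y|`, then one can choose `F j ⊆ N j` with `d` elements such that every
`u` is in at most `Δ` of the sets `F j`.
-/

namespace Pool.Agent.Lib_MP_e12783_co

open Finset

variable {J V : Type*} [Fintype J] [DecidableEq J] [Fintype V] [DecidableEq V]

theorem exists_assign (N : J → Finset V) (d Δ : ℕ)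
    (h : ∀ (X : Finset J) (Y : Finset V), d * X.card ≤ ∑ j ∈ X, (N j \ Y).card + Δ * Y.card) :
    ∃ F : J → Finset V, (∀ j, F j ⊆ N j ∧ (F j).card = d) ∧
      ∀ u, (univ.filter (fun j => u ∈ F j)).card ≤ Δ := by
  classical
  -- the arcs
  let Arc := {e : J × V // e.2 ∈ N e.1}
  let t : (J × Fin d) ⊕ Arc → Finset (Arc ⊕ (V × Fin Δ)) := fun x =>
    match x with
    | Sum.inl p => (univ.filter (fun e : Arc => e.1.1 = p.1)).image Sum.inl
    | Sum.inr e => insert (Sum.inl e)
        ((univ : Finset (Fin Δ)).image (fun i => (Sum.inr (e.1.2, i) : Arc ⊕ (V × Fin Δ))))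
  have hall : ∀ s : Finset ((J × Fin d) ⊕ Arc), s.card ≤ (s.biUnion t).card := by
    intro s
    set Z : Finset Arc := univ.filter (fun e => Sum.inr e ∈ s) with hZ
    set X : Finset J := univ.filter (fun j => ∃ i, (Sum.inl (j, i) : (J × Fin d) ⊕ Arc) ∈ s) with hX
    set Y : Finset V := Z.image (fun e => e.1.2) with hY
    -- cardinality of s
    have hs : s.card ≤ d * X.card + Z.card := by
      have hsub : s ⊆ ((X ×ˢ (univ : Finset (Fin d))).image
          (fun p => (Sum.inl p : (J × Fin d) ⊕ Arc))) ∪ Z.image Sum.inr := by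
        intro x hx
        rcases x with p | e
        · refine mem_union_left _ (mem_image.mpr ⟨p, ?_, rfl⟩)
          rw [mem_product]
          exact ⟨mem_filter.mpr ⟨mem_univ _, p.2, hx⟩, mem_univ _⟩
        · refine mem_union_right _ (mem_image.mpr ⟨e, ?_, rfl⟩)
          exact mem_filter.mpr ⟨mem_univ _, hx⟩
      calc s.card ≤ _ := card_le_card hsub
        _ ≤ _ + _ := card_union_le _ _
        _ ≤ (X ×ˢ (univ : Finset (Fin d))).card + Z.card :=
            Nat.add_le_add card_image_le card_image_le
        _ = d * X.card + Z.card := by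
            rw [card_product, card_univ, Fintype.card_fin, mul_comm]
    -- the three disjoint pieces of the neighbourhood
    set W : Finset Arc := univ.filter (fun e => e.1.1 ∈ X ∧ e.1.2 ∉ Y) with hW
    have hWcard : W.card = ∑ j ∈ X, (N j \ Y).card := by
      have : W.card = (X.sigma (fun j => N j \ Y)).card := by
        refine card_bij (fun e _ => ⟨e.1.1, e.1.2⟩) ?_ ?_ ?_
        · intro e he
          rw [hW, mem_filter] at he
          exact mem_sigma.mpr ⟨he.2.1, mem_sdiff.mpr ⟨e.2, he.2.2⟩⟩
        · intro e he e' he' hee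
          simp only [Sigma.mk.injEq] at hee
          obtain ⟨h1, h2⟩ := hee
          exact Subtype.ext (Prod.ext h1 (eq_of_heq h2))
        · intro b hb
          rw [mem_sigma, mem_sdiff] at hb
          exact ⟨⟨(b.1, b.2), hb.2.1⟩, mem_filter.mpr ⟨mem_univ _, hb.1, hb.2.2⟩, rfl⟩
      rw [this, card_sigma]
    have hdis : Disjoint Z W := by
      rw [disjoint_left]
      intro e he he'
      rw [hW, mem_filter] at he'
      exact he'.2.2 (mem_image.mpr ⟨e, he, rfl⟩)
    have hsub2 : (Z ∪ W).image (fun e => (Sum.inl e : Arc ⊕ (V × Fin Δ))) ∪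
        (Y ×ˢ (univ : Finset (Fin Δ))).image (fun p => (Sum.inr p : Arc ⊕ (V × Fin Δ))) ⊆
        s.biUnion t := by
      intro x hx
      rw [mem_union] at hx
      rcases hx with hx | hx
      · obtain ⟨e, he, rfl⟩ := mem_image.mp hx
        rcases mem_union.mp he with he | he
        · rw [hZ, mem_filter] at he
          exact mem_biUnion.mpr ⟨Sum.inr e, he.2, mem_insert_self _ _⟩
        · rw [hW, mem_filter] at he
          obtain ⟨-, i, hi⟩ := mem_filter.mp he.2.1
          exact mem_biUnion.mpr ⟨Sum.inl (e.1.1, i), hi,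
            mem_image.mpr ⟨e, mem_filter.mpr ⟨mem_univ _, rfl⟩, rfl⟩⟩
      · obtain ⟨p, hp, rfl⟩ := mem_image.mp hx
        rw [mem_product, hY] at hp
        obtain ⟨e, he, hep⟩ := mem_image.mp hp.1
        rw [hZ, mem_filter] at he
        refine mem_biUnion.mpr ⟨Sum.inr e, he.2, mem_insert_of_mem (mem_image.mpr ⟨p.2, mem_univ _, ?_⟩)⟩
        rw [hep]
    have hcard2 : ((Z ∪ W).image (fun e => (Sum.inl e : Arc ⊕ (V × Fin Δ))) ∪
        (Y ×ˢ (univ : Finset (Fin Δ))).image (fun p => (Sum.inr p : Arc ⊕ (V × Fin Δ)))).card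
        = Z.card + W.card + Δ * Y.card := by
      rw [card_union_of_disjoint, card_image_of_injective _ Sum.inl_injective,
        card_image_of_injective _ Sum.inr_injective, card_union_of_disjoint hdis, card_product,
        card_univ, Fintype.card_fin, mul_comm Y.card Δ]
      rw [disjoint_left]
      intro x hx hx'
      obtain ⟨e, -, rfl⟩ := mem_image.mp hx
      obtain ⟨p, -, hp⟩ := mem_image.mp hx'
      cases hp
    have h1 := card_le_card hsub2
    rw [hcard2, hWcard] at h1
    have h2 := h X Y
    omega
  obtain ⟨f, hf, hft⟩ := (all_card_le_biUnion_card_iff_exists_injective t).mp hall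
  -- the arc chosen by a copy
  have hcopy : ∀ p : J × Fin d, ∃ e : Arc, e.1.1 = p.1 ∧ f (Sum.inl p) = Sum.inl e := by
    intro p
    have := hft (Sum.inl p)
    obtain ⟨e, he, hfe⟩ := mem_image.mp this
    exact ⟨e, (mem_filter.mp he).2, hfe.symm⟩
  choose a ha1 ha2 using hcopy
  have ainj : Function.Injective a := by
    intro p q hpq
    have : f (Sum.inl p) = f (Sum.inl q) := by rw [ha2, ha2, hpq]
    exact Sum.inl_injective (hf this)
  refine ⟨fun j => univ.image (fun i => (a (j, i)).1.2), ?_, ?_⟩
  · intro j
    constructor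
    · intro u hu
      obtain ⟨i, -, rfl⟩ := mem_image.mp hu
      have := (a (j, i)).2
      rw [ha1] at this
      exact this
    · rw [card_image_of_injective, card_univ, Fintype.card_fin]
      intro i i' hii
      have h1 : a (j, i) = a (j, i') := by
        apply Subtype.ext
        apply Prod.ext
        · rw [ha1, ha1]
        · exact hii
      have := ainj h1
      exact (Prod.mk.inj this).2
  · intro u
    -- map j to the slot used by the arc (j, u)
    have hslot : ∀ j, u ∈ univ.image (fun i => (a (j, i)).1.2) →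
        ∃ (e : Arc) (k : Fin Δ), e.1 = (j, u) ∧ f (Sum.inr e) = Sum.inr (u, k) := by
      intro j hj
      obtain ⟨i, -, hi⟩ := mem_image.mp hj
      have he : (a (j, i)).1 = (j, u) := Prod.ext (ha1 (j, i)) hi
      have hne : f (Sum.inr (a (j, i))) ≠ Sum.inl (a (j, i)) := by
        intro hcon
        have : f (Sum.inr (a (j, i))) = f (Sum.inl (j, i)) := by rw [hcon, ha2]
        cases hf this
      have := hft (Sum.inr (a (j, i)))
      rcases mem_insert.mp this with h1 | h1
      · exact absurd h1 hne
      · obtain ⟨k, -, hk⟩ := mem_image.mp h1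
        refine ⟨a (j, i), k, he, ?_⟩
        rw [← hk, he]
    have : (univ.filter (fun j => u ∈ univ.image (fun i => (a (j, i)).1.2))).card
        ≤ (univ : Finset (Fin Δ)).card := by
      classical
      let g : J → Fin Δ → Prop := fun j k => ∃ (e : Arc), e.1 = (j, u) ∧ f (Sum.inr e) = Sum.inr (u, k)
      refine card_le_card_of_forall_subsingleton g ?_ ?_
      · intro j hj
        obtain ⟨e, k, he, hk⟩ := hslot j (mem_filter.mp hj).2
        exact ⟨k, mem_univ _, e, he, hk⟩
      · intro k _ j hj j' hj'
        obtain ⟨-, e, he, hk⟩ := hj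
        obtain ⟨-, e', he', hk'⟩ := hj'
        have h1 : f (Sum.inr e) = f (Sum.inr e') := by rw [hk, hk']
        have h2 : e = e' := Sum.inr_injective (hf h1)
        rw [h2] at he
        have := he.symm.trans he'
        exact (Prod.mk.inj this).1
    rwa [card_univ, Fintype.card_fin] at this

end Pool.Agent.Lib_MP_e12783_co
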