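import Mathlib

set_option autoImplicit false

/-!
# Independent sets in digraphs of bounded outdegree
-/

namespace Pool.Agent.Lib_MP_e12783_co

open Finset

variable {V : Type*} [DecidableEq V]

/-- If every vertex of `M` has fewer than `d` out-neighbours in `M`, then `M` contains an independent
set of size at least `|M| / (2 d - 1)`. -/
theorem exists_indep (N : V → Finset V) (hN : ∀ v, v ∉ N v) (d : ℕ) :
    ∀ (n : ℕ) (M : Finset V), M.card = n → (∀ v ∈ M, (N v ∩ M).card < d) →
      ∃ I ⊆ M, (∀ u ∈ I, ∀ v ∈ I, u ∉ N v) ∧ M.card ≤ (2 * d - 1) * I.card := by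
  intro n
  induction n using Nat.strong_induction_on with
  | _ n ih =>
    intro M hM h
    rcases M.eq_empty_or_nonempty with rfl | hne
    · exact ⟨∅, subset_rfl, by simp, by simp⟩
    -- a vertex of small in-degree
    have hd : 1 ≤ d := by
      obtain ⟨v, hv⟩ := hne
      have := h v hv
      omega
    have hsum : ∑ v ∈ M, (M.filter (fun u => v ∈ N u)).card = ∑ u ∈ M, (N u ∩ M).card := by
      have h1 : ∀ v ∈ M, (M.filter (fun u => v ∈ N u)).card = ∑ u ∈ M, if v ∈ N u then 1 else 0 :=
        fun v _ => card_filter _ _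
      have h2 : ∀ u ∈ M, (N u ∩ M).card = ∑ v ∈ M, if v ∈ N u then 1 else 0 := by
        intro u _
        rw [← card_filter]
        congr 1
        ext v
        simp [and_comm]
      rw [sum_congr rfl h1, sum_congr rfl h2, sum_comm]
    have hex : ∃ v ∈ M, (M.filter (fun u => v ∈ N u)).card ≤ d - 1 := by
      by_contra hcon
      push Not at hcon
      have h1 : ∑ u ∈ M, (N u ∩ M).card ≤ ∑ _u ∈ M, (d - 1) :=
        sum_le_sum (fun u hu => by have := h u hu; omega)
      have h2 : ∑ _v ∈ M, (d - 1) < ∑ v ∈ M, (M.filter (fun u => v ∈ N u)).card :=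
        sum_lt_sum_of_nonempty hne (fun v hv => hcon v hv)
      rw [hsum] at h2
      exact absurd h1 (not_le.mpr h2)
    obtain ⟨v, hv, hvd⟩ := hex
    set R : Finset V := insert v ((N v ∩ M) ∪ M.filter (fun u => v ∈ N u)) with hR
    have hRM : R ⊆ M := by
      intro x hx
      rw [hR, mem_insert, mem_union] at hx
      rcases hx with rfl | hx | hx
      · exact hv
      · exact (mem_inter.mp hx).2
      · exact (mem_filter.mp hx).1
    have hRcard : R.card ≤ 2 * d - 1 := by
      have h1 := h v hv
      have h2 : R.card ≤ ((N v ∩ M) ∪ M.filter (fun u => v ∈ N u)).card + 1 := card_insert_le _ _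
      have h3 := card_union_le (N v ∩ M) (M.filter (fun u => v ∈ N u))
      omega
    have hlt : (M \ R).card < n := by
      rw [← hM]
      refine card_lt_card (Finset.ssubset_iff_subset_ne.mpr ⟨sdiff_subset, ?_⟩)
      intro heq
      have : v ∈ M \ R := by rw [heq]; exact hv
      exact (mem_sdiff.mp this).2 (mem_insert_self _ _)
    obtain ⟨I, hI, hind, hcard⟩ := ih _ hlt (M \ R) rfl (by
      intro u hu
      refine lt_of_le_of_lt (card_le_card ?_) (h u (mem_sdiff.mp hu).1)
      exact inter_subset_inter_left sdiff_subset)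
    have hvI : v ∉ I := fun hvI => (mem_sdiff.mp (hI hvI)).2 (mem_insert_self _ _)
    refine ⟨insert v I, ?_, ?_, ?_⟩
    · intro x hx
      rcases mem_insert.mp hx with rfl | hx
      · exact hv
      · exact (mem_sdiff.mp (hI hx)).1
    · intro x hx0 y hy0 hxy
      rcases mem_insert.mp hx0 with rfl | hx
      · rcases mem_insert.mp hy0 with rfl | hy
        · exact hN _ hxy
        · refine (mem_sdiff.mp (hI hy)).2 ?_
          rw [hR]
          exact mem_insert_of_mem (mem_union_right _
            (mem_filter.mpr ⟨(mem_sdiff.mp (hI hy)).1, hxy⟩))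
      · rcases mem_insert.mp hy0 with rfl | hy
        · refine (mem_sdiff.mp (hI hx)).2 ?_
          rw [hR]
          exact mem_insert_of_mem (mem_union_left _
            (mem_inter.mpr ⟨hxy, (mem_sdiff.mp (hI hx)).1⟩))
        · exact hind x hx y hy hxy
    · rw [card_insert_of_notMem hvI]
      have h1 : M.card = (M \ R).card + R.card := by
        rw [card_sdiff_add_card_eq_card hRM]
      rw [h1, Nat.mul_succ]
      exact Nat.add_le_add hcard hRcard

end Pool.Agent.Lib_MP_e12783_co
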