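import Mathlib
import Pool.Agent.Lib_MP_e12783_co.Hall
import Pool.Agent.Lib_MP_e12783_co.Color
import Pool.Agent.Lib_MP_e12783_co.Indep

set_option autoImplicit false

/-!
# Digraphs without unbalanced independent sets split
-/

namespace Pool.Agent.Lib_MP_e12783_co

open Finset

variable {V C : Type*} [Fintype V] [DecidableEq V] [Fintype C] [DecidableEq C] [Nonempty C]

theorem main_aux (N : V → Finset V) (hN : ∀ v, v ∉ N v) (s d k : ℕ) (hd : 1 ≤ d) (hk : 1 ≤ k)
    (hcond : 8 * k * d ^ 3 * (Fintype.card C * few (Fintype.card C) s d) ≤ Fintype.card C ^ d)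
    (hdeg : ∀ v, d ≤ (N v).card) :
    (∃ c : V → C, ∀ v, ∀ b : C, s ≤ ((N v).filter (fun u => c u = b)).card) ∨
    ∃ I Y : Finset V, Y.Nonempty ∧ Disjoint I Y ∧ (∀ u ∈ I, ∀ v ∈ I, u ∉ N v) ∧
      (∀ u ∈ I, ∀ v ∈ I, N u = N v → u = v) ∧ k * Y.card < I.card ∧
      ∀ v ∈ I, (N v \ Y).card < d := by
  classical
  let J := {x : Finset V // ∃ v, N v = x}
  let N' : J → Finset V := fun j => j.1
  set Δ := d * (1 + k * (2 * d - 1)) with hΔ
  by_cases hall : ∀ (X : Finset J) (Y : Finset V),
      d * X.card ≤ ∑ j ∈ X, (N' j \ Y).card + Δ * Y.card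
  · left
    obtain ⟨F, hF, hload⟩ := exists_assign N' d Δ hall
    have hcond' : 4 * (d * Δ) * (Fintype.card C * few (Fintype.card C) s d) ≤ Fintype.card C ^ d := by
      refine le_trans (Nat.mul_le_mul_right _ ?_) hcond
      have h1 : Δ ≤ d * (2 * k * d) := by
        rw [hΔ]
        refine Nat.mul_le_mul_left _ ?_
        obtain ⟨e, rfl⟩ : ∃ e, d = e + 1 := ⟨d - 1, by omega⟩
        have : 2 * (e + 1) - 1 = 2 * e + 1 := by omega
        rw [this]
        nlinarith
      calc 4 * (d * Δ) ≤ 4 * (d * (d * (2 * k * d))) :=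
            Nat.mul_le_mul_left _ (Nat.mul_le_mul_left _ h1)
        _ = 8 * k * d ^ 3 := by ring
    obtain ⟨c, hc⟩ := exists_coloring F s d Δ hd (fun j => (hF j).2) hload hcond'
    refine ⟨c, fun v b => ?_⟩
    refine (hc ⟨N v, v, rfl⟩ b).trans (card_le_card ?_)
    exact filter_subset_filter _ (hF _).1
  · right
    push Not at hall
    obtain ⟨X, Y, hXY⟩ := hall
    -- the members of X with few elements outside Y
    set X' := X.filter (fun j => (N' j \ Y).card < d) with hX'
    have h1 : Δ * Y.card < d * X'.card := by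
      have hsplit : ∑ j ∈ X, (N' j \ Y).card = ∑ j ∈ X', (N' j \ Y).card +
          ∑ j ∈ X.filter (fun j => ¬ (N' j \ Y).card < d), (N' j \ Y).card :=
        (sum_filter_add_sum_filter_not X _ _).symm
      have hcard : X.card = X'.card + (X.filter (fun j => ¬ (N' j \ Y).card < d)).card :=
        (card_filter_add_card_filter_not (s := X) (fun j => (N' j \ Y).card < d)).symm
      have h2 : ∑ _j ∈ X.filter (fun j => ¬ (N' j \ Y).card < d), d ≤
          ∑ j ∈ X.filter (fun j => ¬ (N' j \ Y).card < d), (N' j \ Y).card :=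
        sum_le_sum (fun j hj => not_lt.mp (mem_filter.mp hj).2)
      rw [sum_const, smul_eq_mul] at h2
      rw [hsplit, hcard] at hXY
      have h3 : 0 ≤ ∑ j ∈ X', (N' j \ Y).card := Nat.zero_le _
      nlinarith
    have h2 : (1 + k * (2 * d - 1)) * Y.card < X'.card := by
      have : d * ((1 + k * (2 * d - 1)) * Y.card) < d * X'.card := by
        rw [← mul_assoc]; exact h1
      exact Nat.lt_of_mul_lt_mul_left this
    -- representatives
    let rep : J → V := fun j => j.2.choose
    have hrep : ∀ j, N (rep j) = j.1 := fun j => j.2.choose_spec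
    have repinj : Function.Injective rep := by
      intro i j hij
      apply Subtype.ext
      rw [← hrep i, ← hrep j, hij]
    set M := (X'.image rep) \ Y with hM
    have hMcard : k * (2 * d - 1) * Y.card < M.card := by
      have h3 : (X'.image rep).card = X'.card := card_image_of_injective _ repinj
      have h4 : (X'.image rep).card ≤ M.card + Y.card := by
        calc (X'.image rep).card ≤ (((X'.image rep) \ Y) ∪ Y).card :=
              card_le_card (by rw [sdiff_union_self_eq_union]; exact subset_union_left)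
          _ ≤ _ := card_union_le _ _
      nlinarith
    have hMdeg : ∀ v ∈ M, (N v \ Y).card < d := by
      intro v hv
      obtain ⟨hv1, -⟩ := mem_sdiff.mp hv
      obtain ⟨j, hj, rfl⟩ := mem_image.mp hv1
      rw [hrep]
      exact (mem_filter.mp hj).2
    have hMinj : ∀ u ∈ M, ∀ v ∈ M, N u = N v → u = v := by
      intro u hu v hv huv
      obtain ⟨i, -, rfl⟩ := mem_image.mp (mem_sdiff.mp hu).1
      obtain ⟨j, -, rfl⟩ := mem_image.mp (mem_sdiff.mp hv).1
      rw [hrep, hrep] at huv
      rw [Subtype.ext huv]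
    obtain ⟨I, hIM, hind, hIcard⟩ := exists_indep N hN d M.card M rfl (by
      intro v hv
      refine lt_of_le_of_lt (card_le_card ?_) (hMdeg v hv)
      intro u hu
      rw [mem_inter] at hu
      exact mem_sdiff.mpr ⟨hu.1, (mem_sdiff.mp hu.2).2⟩)
    refine ⟨I, Y, ?_, ?_, hind, ?_, ?_, ?_⟩
    · -- Y is nonempty
      rw [nonempty_iff_ne_empty]
      intro hY
      have hX'pos : 0 < X'.card := lt_of_le_of_lt (Nat.zero_le _) h2
      obtain ⟨j, hj⟩ := card_pos.mp hX'pos
      have h3 := (mem_filter.mp hj).2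
      rw [hY, sdiff_empty] at h3
      obtain ⟨v, hv⟩ := j.2
      have h4 := hdeg v
      rw [hv] at h4
      exact absurd h3 (not_lt.mpr h4)
    · rw [disjoint_left]
      intro x hx
      exact (mem_sdiff.mp (hIM hx)).2
    · exact fun u hu v hv => hMinj u (hIM hu) v (hIM hv)
    · have h3 : (2 * d - 1) * (k * Y.card) < (2 * d - 1) * I.card := by
        calc (2 * d - 1) * (k * Y.card) = k * (2 * d - 1) * Y.card := by ring
          _ < M.card := hMcard
          _ ≤ _ := hIcard
      exact Nat.lt_of_mul_lt_mul_left h3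
    · exact fun v hv => hMdeg v (hIM hv)

/-- A vertex with a large independent set of in-neighbours. -/
theorem exists_star (N : V → Finset V) (d k : ℕ) (hdeg : ∀ v, d ≤ (N v).card)
    (I Y : Finset V) (hcard : k * Y.card < I.card) (h : ∀ v ∈ I, (N v \ Y).card < d) :
    ∃ y ∈ Y, k < (I.filter (fun v => y ∈ N v)).card := by
  classical
  by_contra hcon
  push Not at hcon
  have h1 : I ⊆ Y.biUnion (fun y => I.filter (fun v => y ∈ N v)) := by
    intro v hv
    have h2 : (N v ∩ Y).Nonempty := by
      rw [nonempty_iff_ne_empty]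
      intro he
      have h3 : N v \ Y = N v :=
        Finset.sdiff_eq_self_iff_disjoint.mpr (Finset.disjoint_iff_inter_eq_empty.mpr he)
      have h4 := h v hv
      rw [h3] at h4
      exact absurd h4 (not_lt.mpr (hdeg v))
    obtain ⟨y, hy⟩ := h2
    rw [mem_inter] at hy
    exact mem_biUnion.mpr ⟨y, hy.2, mem_filter.mpr ⟨hv, hy.1⟩⟩
  have h2 : I.card ≤ k * Y.card := by
    calc I.card ≤ _ := card_le_card h1
      _ ≤ ∑ y ∈ Y, (I.filter (fun v => y ∈ N v)).card := card_biUnion_le
      _ ≤ ∑ _y ∈ Y, k := sum_le_sum hcon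
      _ = k * Y.card := by rw [sum_const, smul_eq_mul, mul_comm]
  exact absurd hcard (not_lt.mpr h2)

end Pool.Agent.Lib_MP_e12783_co
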