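import Mathlib

set_option autoImplicit false

/-!
# `r`-wise `t`-intersecting up-sets are exponentially small

If `U i` (`i` in an index set with `r` elements) are up-closed families of subsets of `Y` and any members `F i ∈ U i`
have at least `t` common elements, then `∏ |U i| c ^ t ≤ (2 ^ r) ^ |Y|` for every `c ≥ 1` with
`c (1 + 1 / c) ^ r ≤ 2 ^ r`.  Induction on `Y`.
-/

namespace Pool.Agent.Lib_MP_e12783_co

open Finset

theorem poly_ineq (r : ℕ) (c β : ℝ) (hc : 1 ≤ c) (hcr : (1 + 1 / c) ^ r * c ≤ 2 ^ r)
    (h1 : 1 / c ≤ β) (h2 : β ≤ 1) : (1 + β) ^ r ≤ 2 ^ r * β := by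
  have hc0 : 0 < c := by linarith
  have hc1 : 1 / c ≤ 1 := by rw [div_le_one hc0]; exact hc
  have hconv : ConvexOn ℝ (Set.Ici (0 : ℝ)) (fun x : ℝ => x ^ r) := convexOn_pow r
  rcases eq_or_lt_of_le hc1 with h | h
  · -- then β = 1
    have hβ : β = 1 := le_antisymm h2 (by rw [← h]; exact h1)
    rw [hβ]
    norm_num
  · -- β is a convex combination of 1 / c and 1
    set s := (1 - β) / (1 - 1 / c) with hs
    have hd : 0 < 1 - 1 / c := by linarith
    have hs0 : 0 ≤ s := by rw [hs]; exact div_nonneg (by linarith) hd.le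
    have hs1 : s ≤ 1 := by rw [hs, div_le_one hd]; linarith
    have hβ : β = s * (1 / c) + (1 - s) * 1 := by
      have : s * (1 - 1 / c) = 1 - β := by rw [hs]; exact div_mul_cancel₀ _ hd.ne'
      linarith
    have key := hconv.2 (x := 1 + 1 / c) (y := 2) (by
      simp only [Set.mem_Ici]; positivity) (by simp) hs0 (by linarith : 0 ≤ 1 - s) (by ring)
    simp only [smul_eq_mul] at key
    have e1 : s * (1 + 1 / c) + (1 - s) * 2 = 1 + β := by rw [hβ]; ring
    rw [e1] at key
    have e2 : (1 + 1 / c) ^ r ≤ 2 ^ r * (1 / c) := by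
      rw [mul_one_div, le_div_iff₀ hc0]; exact hcr
    calc (1 + β) ^ r ≤ s * (1 + 1 / c) ^ r + (1 - s) * 2 ^ r := key
      _ ≤ s * (2 ^ r * (1 / c)) + (1 - s) * 2 ^ r := by
          gcongr
      _ = 2 ^ r * (s * (1 / c) + (1 - s) * 1) := by ring
      _ = 2 ^ r * β := by rw [← hβ]

theorem prod_ineq {ι : Type*} [Fintype ι] [DecidableEq ι] (a b : ι → ℝ) (c M : ℝ) (hc : 1 ≤ c)
    (hcr : (1 + 1 / c) ^ Fintype.card ι * c ≤ 2 ^ Fintype.card ι)
    (hb : ∀ i, 0 ≤ b i) (hba : ∀ i, b i ≤ a i) (hA : ∏ i, a i ≤ c * M)
    (hB : ∀ i, ∏ j, Function.update a i (b i) j ≤ M) (hM : 0 ≤ M) :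
    ∏ i, (a i + b i) ≤ 2 ^ Fintype.card ι * M := by
  have hc0 : 0 < c := by linarith
  have ha : ∀ i, 0 ≤ a i := fun i => (hb i).trans (hba i)
  by_cases hz : ∃ i, a i = 0
  · obtain ⟨i, hi⟩ := hz
    have hbi : b i = 0 := le_antisymm (hi ▸ hba i) (hb i)
    rw [prod_eq_zero (mem_univ i) (by rw [hi, hbi, add_zero])]
    positivity
  push Not at hz
  have hapos : ∀ i, 0 < a i := fun i => lt_of_le_of_ne (ha i) (hz i).symm
  set A := ∏ i, a i with hAdef
  have hApos : 0 < A := prod_pos (fun i _ => hapos i)
  by_cases hAM : A ≤ M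
  · calc ∏ i, (a i + b i) ≤ ∏ i, (2 * a i) :=
          prod_le_prod (fun i _ => add_nonneg (ha i) (hb i)) (fun i _ => by linarith [hba i])
      _ = 2 ^ Fintype.card ι * A := by
          rw [prod_mul_distrib, prod_const, card_univ]
      _ ≤ _ := by gcongr
  · push Not at hAM
    set β := M / A with hβ
    have hβ0 : 0 ≤ β := by positivity
    have hβ1 : β ≤ 1 := by rw [hβ, div_le_one hApos]; exact hAM.le
    have hβc : 1 / c ≤ β := by
      rw [hβ, div_le_div_iff₀ hc0 hApos]; linarith
    have hMβ : M = A * β := by rw [hβ]; field_simp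
    have hbβ : ∀ i, b i ≤ a i * β := by
      intro i
      have h1 := hB i
      rw [prod_update_of_mem (mem_univ i)] at h1
      have h2 : A = a i * ∏ j ∈ univ \ {i}, a j := by
        rw [hAdef, ← prod_update_of_mem (mem_univ i) a (a i), Function.update_eq_self]
      have h3 : 0 < ∏ j ∈ univ \ {i}, a j := prod_pos (fun j _ => hapos j)
      have h4 : b i * ∏ j ∈ univ \ {i}, a j ≤ (a i * β) * ∏ j ∈ univ \ {i}, a j := by
        calc _ ≤ M := h1
          _ = (a i * ∏ j ∈ univ \ {i}, a j) * β := by rw [hMβ, h2]
          _ = _ := by ring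
      exact le_of_mul_le_mul_right h4 h3
    calc ∏ i, (a i + b i) ≤ ∏ i, (a i * (1 + β)) :=
          prod_le_prod (fun i _ => add_nonneg (ha i) (hb i)) (fun i _ => by linarith [hbβ i])
      _ = A * (1 + β) ^ Fintype.card ι := by
          rw [prod_mul_distrib, prod_const, card_univ]
      _ ≤ A * (2 ^ Fintype.card ι * β) := by
          have := poly_ineq (Fintype.card ι) c β hc hcr hβc hβ1
          gcongr
      _ = 2 ^ Fintype.card ι * M := by rw [hMβ]; ring

variable {V : Type*} [DecidableEq V]

/-- `U` is an up-closed family of subsets of `Y`. -/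
def UpFam (Y : Finset V) (U : Finset (Finset V)) : Prop :=
  (∀ F ∈ U, F ⊆ Y) ∧ ∀ F ∈ U, ∀ G, F ⊆ G → G ⊆ Y → G ∈ U

/-- the members which do not contain `a` -/
def famZero (Y : Finset V) (U : Finset (Finset V)) : Finset (Finset V) :=
  Y.powerset.filter (fun F => F ∈ U)

/-- the members which contain `a`, without `a` -/
def famOne (a : V) (Y : Finset V) (U : Finset (Finset V)) : Finset (Finset V) :=
  Y.powerset.filter (fun F => insert a F ∈ U)

theorem upFam_zero {a : V} {Y : Finset V} {U : Finset (Finset V)} (hU : UpFam (insert a Y) U) :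
    UpFam Y (famZero Y U) := by
  constructor
  · intro F hF
    exact mem_powerset.mp (mem_filter.mp hF).1
  · intro F hF G hFG hG
    exact mem_filter.mpr ⟨mem_powerset.mpr hG,
      hU.2 F (mem_filter.mp hF).2 G hFG (hG.trans (subset_insert _ _))⟩

theorem upFam_one {a : V} {Y : Finset V} {U : Finset (Finset V)} (hU : UpFam (insert a Y) U) :
    UpFam Y (famOne a Y U) := by
  constructor
  · intro F hF
    exact mem_powerset.mp (mem_filter.mp hF).1
  · intro F hF G hFG hG
    exact mem_filter.mpr ⟨mem_powerset.mpr hG,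
      hU.2 _ (mem_filter.mp hF).2 _ (insert_subset_insert _ hFG) (insert_subset_insert _ hG)⟩

theorem upFam_le {a : V} {Y : Finset V} {U : Finset (Finset V)} (hU : UpFam (insert a Y) U) :
    (famZero Y U).card ≤ (famOne a Y U).card := by
  refine card_le_card ?_
  intro F hF
  obtain ⟨h1, h2⟩ := mem_filter.mp hF
  exact mem_filter.mpr ⟨h1, hU.2 F h2 _ (subset_insert _ _)
    (insert_subset_insert _ (mem_powerset.mp h1))⟩

theorem upFam_card {a : V} {Y : Finset V} {U : Finset (Finset V)}
    (hU : UpFam (insert a Y) U) :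
    U.card ≤ (famOne a Y U).card + (famZero Y U).card := by
  have h : U ⊆ ((famOne a Y U).image (insert a)) ∪ famZero Y U := by
    intro F hF
    have hFY := hU.1 F hF
    by_cases haF : a ∈ F
    · refine mem_union_left _ (mem_image.mpr ⟨F.erase a, ?_, insert_erase haF⟩)
      refine mem_filter.mpr ⟨mem_powerset.mpr ?_, by rw [insert_erase haF]; exact hF⟩
      intro x hx
      rw [mem_erase] at hx
      exact (mem_insert.mp (hFY hx.2)).resolve_left hx.1
    · refine mem_union_right _ (mem_filter.mpr ⟨mem_powerset.mpr ?_, hF⟩)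
      intro x hx
      refine (mem_insert.mp (hFY hx)).resolve_left ?_
      rintro rfl
      exact haF hx
  exact (card_le_card h).trans ((card_union_le _ _).trans (Nat.add_le_add_right card_image_le _))

theorem inter_r {ι : Type*} [Fintype ι] [DecidableEq ι] [Nonempty ι] (c : ℝ) (hc : 1 ≤ c)
    (hcr : (1 + 1 / c) ^ Fintype.card ι * c ≤ 2 ^ Fintype.card ι) (Y : Finset V) :
    ∀ (t : ℕ) (U : ι → Finset (Finset V)), (∀ i, UpFam Y (U i)) →
    (∀ F : ι → Finset V, (∀ i, F i ∈ U i) → t ≤ (Y.filter (fun x => ∀ i, x ∈ F i)).card) →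
    (∏ i, ((U i).card : ℝ)) * c ^ t ≤ (2 ^ Fintype.card ι) ^ Y.card := by
  classical
  have hc0 : 0 < c := by linarith
  induction Y using Finset.induction_on with
  | empty =>
    intro t U hU h
    have hle : ∀ i, ((U i).card : ℝ) ≤ 1 := by
      intro i
      have : (U i).card ≤ 1 := by
        refine (card_le_card (t := {∅}) ?_).trans (card_singleton _).le
        intro F hF
        exact mem_singleton.mpr (subset_empty.mp ((hU i).1 F hF))
      exact_mod_cast this
    by_cases hne : ∀ i, (U i).Nonempty
    · choose F hF using hne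
      have ht := h F hF
      rw [filter_empty, card_empty] at ht
      have ht : t = 0 := Nat.le_zero.mp ht
      subst ht
      rw [pow_zero, mul_one, card_empty, pow_zero]
      calc (∏ i, ((U i).card : ℝ)) ≤ ∏ _i : ι, (1 : ℝ) :=
            prod_le_prod (fun i _ => Nat.cast_nonneg _) (fun i _ => hle i)
        _ = 1 := by rw [prod_const_one]
    · push Not at hne
      obtain ⟨i, hi⟩ := hne
      rw [prod_eq_zero (mem_univ i) (by rw [hi]; simp), zero_mul]
      positivity
  | insert a Y ha ih =>
    intro t U hU h
    rw [card_insert_of_notMem ha]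
    rcases t with _ | t
    · -- trivial bound
      have hle : ∀ i, ((U i).card : ℝ) ≤ 2 ^ (Y.card + 1) := by
        intro i
        have : (U i).card ≤ (insert a Y).powerset.card :=
          card_le_card (fun F hF => mem_powerset.mpr ((hU i).1 F hF))
        rw [card_powerset, card_insert_of_notMem ha] at this
        exact_mod_cast this
      rw [pow_zero, mul_one]
      calc (∏ i, ((U i).card : ℝ)) ≤ ∏ _i : ι, (2 : ℝ) ^ (Y.card + 1) :=
            prod_le_prod (fun i _ => Nat.cast_nonneg _) (fun i _ => hle i)
        _ = (2 ^ Fintype.card ι) ^ (Y.card + 1) := by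
            rw [prod_const, card_univ, ← pow_mul, ← pow_mul, mul_comm]
    · have hnot : ∀ F ∈ Y.powerset, a ∉ F := fun F hF haF => ha (mem_powerset.mp hF haF)
      -- all ones
      have k0 := ih t (fun i => famOne a Y (U i)) (fun i => upFam_one (hU i)) (by
        intro F hF
        have h1 := h (fun i => insert a (F i)) (fun i => (mem_filter.mp (hF i)).2)
        have he : (insert a Y).filter (fun x => ∀ i, x ∈ insert a (F i)) =
            insert a (Y.filter (fun x => ∀ i, x ∈ F i)) := by
          ext x
          simp only [mem_filter, mem_insert]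
          constructor
          · rintro ⟨h2 | h2, h3⟩
            · exact Or.inl h2
            · right
              refine ⟨h2, fun i => (h3 i).resolve_left ?_⟩
              rintro rfl
              exact ha h2
          · rintro (h2 | ⟨h2, h3⟩)
            · exact ⟨Or.inl h2, fun _ => Or.inl h2⟩
            · exact ⟨Or.inr h2, fun i => Or.inr (h3 i)⟩
        rw [he, card_insert_of_notMem (fun hh => ha (mem_filter.mp hh).1)] at h1
        omega)
      have k1 : ∀ i0 : ι, (∏ i, ((Function.update (fun i => famOne a Y (U i)) i0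
          (famZero Y (U i0)) i).card : ℝ)) * c ^ (t + 1) ≤ (2 ^ Fintype.card ι) ^ Y.card := by
        intro i0
        refine ih (t + 1) _ ?_ ?_
        · intro i
          by_cases hi : i = i0
          · subst hi
            rw [Function.update_self]
            exact upFam_zero (hU i)
          · rw [Function.update_of_ne hi]
            exact upFam_one (hU i)
        · intro F hF
          have hF0 : F i0 ∈ famZero Y (U i0) := by
            have := hF i0
            rwa [Function.update_self] at this
          have hF1 : ∀ i, i ≠ i0 → F i ∈ famOne a Y (U i) := by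
            intro i hi
            have := hF i
            rwa [Function.update_of_ne hi] at this
          have h1 := h (fun i => if i = i0 then F i else insert a (F i)) (by
            intro i
            by_cases hi : i = i0
            · subst hi
              rw [if_pos rfl]
              exact (mem_filter.mp hF0).2
            · rw [if_neg hi]
              exact (mem_filter.mp (hF1 i hi)).2)
          refine h1.trans (card_le_card ?_)
          intro x hx
          obtain ⟨hx1, hx2⟩ := mem_filter.mp hx
          have hx0 : x ∈ F i0 := by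
            have := hx2 i0
            rwa [if_pos rfl] at this
          have hxa : x ≠ a := by
            rintro rfl
            exact hnot _ (mem_filter.mp hF0).1 hx0
          refine mem_filter.mpr ⟨(mem_insert.mp hx1).resolve_left hxa, fun i => ?_⟩
          by_cases hi : i = i0
          · subst hi
            exact hx0
          · have := hx2 i
            rw [if_neg hi] at this
            exact (mem_insert.mp this).resolve_left hxa
      set M : ℝ := (2 ^ Fintype.card ι) ^ Y.card / c ^ (t + 1) with hM
      have h4 : (0 : ℝ) < c ^ (t + 1) := by positivity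
      have hMpos : 0 ≤ M := by positivity
      have key := prod_ineq (fun i => ((famOne a Y (U i)).card : ℝ))
        (fun i => ((famZero Y (U i)).card : ℝ)) c M hc hcr
        (fun i => Nat.cast_nonneg _) (fun i => by exact_mod_cast upFam_le (hU i))
        (by
          rw [hM, mul_div_assoc', le_div_iff₀ h4, pow_succ, ← mul_assoc, mul_comm c]
          exact mul_le_mul_of_nonneg_right k0 hc0.le)
        (by
          intro i0
          rw [hM, le_div_iff₀ h4]
          refine le_trans (le_of_eq ?_) (k1 i0)
          congr 1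
          refine prod_congr rfl (fun i _ => ?_)
          by_cases hi : i = i0
          · subst hi
            rw [Function.update_self, Function.update_self]
          · rw [Function.update_of_ne hi, Function.update_of_ne hi]) hMpos
      calc (∏ i, ((U i).card : ℝ)) * c ^ (t + 1)
          ≤ (∏ i, (((famOne a Y (U i)).card : ℝ) + ((famZero Y (U i)).card : ℝ))) *
              c ^ (t + 1) := by
            refine mul_le_mul_of_nonneg_right ?_ h4.le
            refine prod_le_prod (fun i _ => Nat.cast_nonneg _) (fun i _ => ?_)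
            exact_mod_cast upFam_card (hU i)
        _ ≤ (2 ^ Fintype.card ι * M) * c ^ (t + 1) := by gcongr
        _ = (2 ^ Fintype.card ι) ^ (Y.card + 1) := by
            rw [hM, mul_assoc, div_mul_cancel₀ _ h4.ne', pow_succ, mul_comm]

/-- the constant `2 ^ (r - 1)` is admissible -/
theorem const_ok (r : ℕ) (hr : 3 ≤ r) :
    (1 + 1 / (2 : ℝ) ^ (r - 1)) ^ r * 2 ^ (r - 1) ≤ 2 ^ r := by
  obtain ⟨q, rfl⟩ : ∃ q, r = q + 1 := ⟨r - 1, by omega⟩
  simp only [Nat.add_sub_cancel]
  have h2 : (0 : ℝ) < 2 ^ q := by positivity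
  suffices h : (1 + 1 / (2 : ℝ) ^ q) ^ (q + 1) ≤ 2 by
    calc (1 + 1 / (2 : ℝ) ^ q) ^ (q + 1) * 2 ^ q ≤ 2 * 2 ^ q := by gcongr
      _ = 2 ^ (q + 1) := by ring
  rcases Nat.lt_or_ge q 3 with hq | hq
  · have : q = 2 := by omega
    subst this
    norm_num
  · have hpow : (2 : ℝ) * (q + 1) ≤ 2 ^ q := by
      have : 2 * (q + 1) ≤ 2 ^ q := by
        induction q, hq using Nat.le_induction with
        | base => norm_num
        | succ n hn ih =>
          have := ih (by omega) (by positivity)
          rw [pow_succ]
          omega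
      exact_mod_cast this
    set x : ℝ := 1 / 2 ^ q with hx
    have hx0 : 0 < x := by positivity
    have hx1 : (q + 1) * x ≤ 1 / 2 := by
      rw [hx, mul_one_div, div_le_div_iff₀ h2 (by norm_num)]
      linarith
    have hxlt : x ≤ 1 := by
      have : (1 : ℝ) ≤ q + 1 := by linarith [(Nat.cast_nonneg q : (0 : ℝ) ≤ q)]
      nlinarith
    have hb : 1 + ((q + 1 : ℕ) : ℝ) * (-x) ≤ (1 + (-x)) ^ (q + 1) :=
      one_add_mul_le_pow (by linarith) (q + 1)
    push_cast at hb
    have hb' : 1 / 2 ≤ (1 - x) ^ (q + 1) := by
      have : (1 + -x) = 1 - x := by ring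
      rw [this] at hb
      linarith
    have hprod : (1 + x) ^ (q + 1) * (1 - x) ^ (q + 1) ≤ 1 := by
      rw [← mul_pow]
      refine pow_le_one₀ ?_ ?_
      · nlinarith
      · nlinarith
    have hpos : 0 ≤ (1 + x) ^ (q + 1) := by positivity
    nlinarith

end Pool.Agent.Lib_MP_e12783_co
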