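import Mathlib
import Pool.Agent.Lib_MP_e12783_co.Inter

set_option autoImplicit false

/-!
# Stages of forced vertices and a good partition of the hubs

`X v`: the vertex `v` has many out-neighbours among the hubs, `H v` is the set of these; otherwise `F v` is a set of
out-neighbours outside the hubs.  For a set `T` of hubs, `stage T n` collects the vertices with at most `σ` reliable
out-neighbours for the colour `T`.
-/

namespace Pool.Agent.Lib_MP_e12783_co

open Finset

variable {V : Type*} [Fintype V] [DecidableEq V]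

section Stage

variable (X : V → Prop) [DecidablePred X] (H F : V → Finset V) (σ : ℕ)

/-- the stages of forced vertices -/
def stage (T : Finset V) : ℕ → Finset V
  | 0 => ∅
  | n + 1 => univ.filter (fun v =>
      (X v ∧ (H v ∩ T).card ≤ σ) ∨ (¬ X v ∧ (F v \ stage T n).card ≤ σ))

theorem mem_stage_succ (T : Finset V) (n : ℕ) (v : V) : v ∈ stage X H F σ T (n + 1) ↔
    (X v ∧ (H v ∩ T).card ≤ σ) ∨ (¬ X v ∧ (F v \ stage X H F σ T n).card ≤ σ) := by
  rw [stage]
  simp

theorem stage_le_succ (T : Finset V) (n : ℕ) :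
    stage X H F σ T n ⊆ stage X H F σ T (n + 1) := by
  induction n with
  | zero =>
    intro v hv
    exact absurd hv (notMem_empty _)
  | succ n ih =>
    intro v hv
    rw [mem_stage_succ] at hv ⊢
    rcases hv with h | ⟨h1, h2⟩
    · exact Or.inl h
    · exact Or.inr ⟨h1, (card_le_card (sdiff_subset_sdiff subset_rfl ih)).trans h2⟩

theorem stage_mono (T : Finset V) {m n : ℕ} (h : m ≤ n) :
    stage X H F σ T m ⊆ stage X H F σ T n := by
  induction n, h using Nat.le_induction with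
  | base => exact subset_rfl
  | succ n _ ih => exact ih.trans (stage_le_succ X H F σ T n)

theorem stage_anti {T T' : Finset V} (h : T ⊆ T') (n : ℕ) :
    stage X H F σ T' n ⊆ stage X H F σ T n := by
  induction n with
  | zero => exact subset_rfl
  | succ n ih =>
    intro v hv
    rw [mem_stage_succ] at hv ⊢
    rcases hv with ⟨h1, h2⟩ | ⟨h1, h2⟩
    · exact Or.inl ⟨h1, (card_le_card (inter_subset_inter_left h)).trans h2⟩
    · exact Or.inr ⟨h1, (card_le_card (sdiff_subset_sdiff subset_rfl ih)).trans h2⟩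

open scoped Classical in
/-- the union of the stages -/
noncomputable def forcd (T : Finset V) : Finset V := univ.filter (fun v => ∃ n, v ∈ stage X H F σ T n)

theorem mem_forcd (T : Finset V) (v : V) : v ∈ forcd X H F σ T ↔ ∃ n, v ∈ stage X H F σ T n := by
  unfold forcd
  simp

theorem exists_stage (T : Finset V) : ∃ n, forcd X H F σ T = stage X H F σ T n := by
  classical
  have h : ∀ v, ∃ n, v ∈ forcd X H F σ T → v ∈ stage X H F σ T n := by
    intro v
    by_cases hv : v ∈ forcd X H F σ T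
    · obtain ⟨n, hn⟩ := (mem_forcd X H F σ T v).mp hv
      exact ⟨n, fun _ => hn⟩
    · exact ⟨0, fun h => absurd h hv⟩
  choose n hn using h
  refine ⟨univ.sup n, ?_⟩
  ext v
  constructor
  · intro hv
    exact stage_mono X H F σ T (le_sup (mem_univ v)) (hn v hv)
  · intro hv
    exact (mem_forcd X H F σ T v).mpr ⟨_, hv⟩

theorem forcd_anti {T T' : Finset V} (h : T ⊆ T') : forcd X H F σ T' ⊆ forcd X H F σ T := by
  intro v hv
  obtain ⟨n, hn⟩ := (mem_forcd X H F σ T' v).mp hv
  exact (mem_forcd X H F σ T v).mpr ⟨n, stage_anti X H F σ h n hn⟩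

theorem mem_forcd_of_X (T : Finset V) (v : V) (hX : X v) (h : (H v ∩ T).card ≤ σ) :
    v ∈ forcd X H F σ T :=
  (mem_forcd X H F σ T v).mpr ⟨1, (mem_stage_succ X H F σ T 0 v).mpr (Or.inl ⟨hX, h⟩)⟩

theorem mem_forcd_of_not_X (T : Finset V) (v : V) (hX : ¬ X v)
    (h : (F v \ forcd X H F σ T).card ≤ σ) : v ∈ forcd X H F σ T := by
  obtain ⟨n, hn⟩ := exists_stage X H F σ T
  rw [hn] at h
  exact (mem_forcd X H F σ T v).mpr ⟨n + 1, (mem_stage_succ X H F σ T n v).mpr (Or.inr ⟨hX, h⟩)⟩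

theorem stage_leaf {ι : Type*} [Fintype ι] [Nonempty ι]
    (hF : ∀ v, ¬ X v → Fintype.card ι * σ < (F v).card) (T : ι → Finset V) :
    ∀ n v, (∀ i, v ∈ stage X H F σ (T i) n) → ∃ x, X x ∧ ∀ i, (H x ∩ T i).card ≤ σ := by
  intro n
  induction n with
  | zero =>
    intro v h
    exact absurd (h (Classical.arbitrary ι)) (notMem_empty _)
  | succ n ih =>
    intro v h
    by_cases hX : X v
    · refine ⟨v, hX, fun i => ?_⟩
      exact (((mem_stage_succ X H F σ (T i) n v).mp (h i)).resolve_right (fun h => h.1 hX)).2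
    · have k : ∀ i, (F v \ stage X H F σ (T i) n).card ≤ σ := fun i =>
        (((mem_stage_succ X H F σ (T i) n v).mp (h i)).resolve_left (fun h => hX h.1)).2
      have : ∃ u, ∀ i, u ∈ stage X H F σ (T i) n := by
        by_contra hcon
        push Not at hcon
        have hsub : F v ⊆ univ.biUnion (fun i => F v \ stage X H F σ (T i) n) := by
          intro u hu
          obtain ⟨i, hi⟩ := hcon u
          exact mem_biUnion.mpr ⟨i, mem_univ _, mem_sdiff.mpr ⟨hu, hi⟩⟩
        have e1 : (F v).card ≤ Fintype.card ι * σ := by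
          calc (F v).card ≤ _ := card_le_card hsub
            _ ≤ ∑ i, (F v \ stage X H F σ (T i) n).card := card_biUnion_le
            _ ≤ ∑ _i : ι, σ := sum_le_sum (fun i _ => k i)
            _ = Fintype.card ι * σ := by rw [sum_const, smul_eq_mul, card_univ]
        exact absurd (hF v hX) (not_lt.mpr e1)
      obtain ⟨u, hu⟩ := this
      exact ih u hu

theorem forcd_leaf {ι : Type*} [Fintype ι] [Nonempty ι]
    (hF : ∀ v, ¬ X v → Fintype.card ι * σ < (F v).card) (T : ι → Finset V) (v : V)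
    (h : ∀ i, v ∈ forcd X H F σ (T i)) : ∃ x, X x ∧ ∀ i, (H x ∩ T i).card ≤ σ := by
  have h' : ∀ i, ∃ n, v ∈ stage X H F σ (T i) n := fun i => (mem_forcd X H F σ (T i) v).mp (h i)
  choose n hn using h'
  refine stage_leaf X H F σ hF T (univ.sup n) v (fun i => ?_)
  exact stage_mono X H F σ (T i) (le_sup (mem_univ i)) (hn i)

/-- The sets which force `y` have many common elements. -/
theorem common_card {ι : Type*} [Fintype ι] [Nonempty ι] (Y0 : Finset V) (t : ℕ) (y : V)
    (hF : ∀ v, ¬ X v → Fintype.card ι * σ < (F v).card)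
    (hH : ∀ v, X v → H v ⊆ Y0 ∧ t + Fintype.card ι * σ ≤ (H v).card) (B : ι → Finset V)
    (hB : ∀ i, y ∈ forcd X H F σ (Y0 \ B i)) :
    t ≤ (Y0.filter (fun x => ∀ i, x ∈ B i)).card := by
  classical
  obtain ⟨x, hx, hc⟩ := forcd_leaf X H F σ hF (fun i => Y0 \ B i) y hB
  obtain ⟨hx1, hx2⟩ := hH x hx
  have hsub : H x ⊆ (Y0.filter (fun x => ∀ i, x ∈ B i)) ∪
      univ.biUnion (fun i : ι => H x ∩ (Y0 \ B i)) := by
    intro u hu
    by_cases a1 : ∀ i, u ∈ B i
    · exact mem_union_left _ (mem_filter.mpr ⟨hx1 hu, a1⟩)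
    · push Not at a1
      obtain ⟨i, hi⟩ := a1
      exact mem_union_right _ (mem_biUnion.mpr ⟨i, mem_univ _,
        mem_inter.mpr ⟨hu, mem_sdiff.mpr ⟨hx1 hu, hi⟩⟩⟩)
  have e1 := (card_le_card hsub).trans (card_union_le _ _)
  have e2 : (univ.biUnion (fun i : ι => H x ∩ (Y0 \ B i))).card ≤ Fintype.card ι * σ := by
    calc _ ≤ ∑ i : ι, (H x ∩ (Y0 \ B i)).card := card_biUnion_le
      _ ≤ ∑ _i : ι, σ := sum_le_sum (fun i _ => hc i)
      _ = Fintype.card ι * σ := by rw [sum_const, smul_eq_mul, card_univ]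
  omega

/-- A partition of the hubs for which no hub is forced. -/
theorem exists_good (Y0 : Finset V) (r t : ℕ) (hr : 3 ≤ r)
    (hF : ∀ v, ¬ X v → r * σ < (F v).card)
    (hH : ∀ v, X v → H v ⊆ Y0 ∧ t + r * σ ≤ (H v).card)
    (hY0 : (2 * Y0.card) ^ r < (2 ^ (r - 1)) ^ t) :
    ∃ T ⊆ Y0, ∀ y ∈ Y0, y ∉ forcd X H F σ T ∧ y ∉ forcd X H F σ (Y0 \ T) := by
  by_contra hcon
  push Not at hcon
  have : Nonempty (Fin r) := ⟨⟨0, by omega⟩⟩
  let U : V → Finset (Finset V) := fun y => Y0.powerset.filter (fun B => y ∈ forcd X H F σ (Y0 \ B))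
  have hU : ∀ y, UpFam Y0 (U y) := by
    intro y
    constructor
    · intro B hB
      exact mem_powerset.mp (mem_filter.mp hB).1
    · intro B hB B' hBB' hB'
      exact mem_filter.mpr ⟨mem_powerset.mpr hB',
        forcd_anti X H F σ (sdiff_subset_sdiff subset_rfl hBB') (mem_filter.mp hB).2⟩
  have hpow : ∀ y, ((U y).card : ℝ) ^ r * (2 ^ (r - 1)) ^ t ≤ (2 ^ r) ^ Y0.card := by
    intro y
    have := inter_r (ι := Fin r) ((2 : ℝ) ^ (r - 1)) (one_le_pow₀ (by norm_num))
      (by rw [Fintype.card_fin]; exact const_ok r hr) Y0 t (fun _ => U y) (fun _ => hU y)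
      (fun B hB => common_card X H F σ Y0 t y (by simpa using hF) (by simpa using hH) B
        (fun i => (mem_filter.mp (hB i)).2))
    rw [prod_const, card_univ, Fintype.card_fin] at this
    exact this
  -- every subset is bad for some hub
  have hcover : Y0.powerset ⊆ Y0.biUnion (fun y => U y ∪ (U y).image (fun B => Y0 \ B)) := by
    intro T hT
    have hT' := mem_powerset.mp hT
    obtain ⟨y, hy, hyb⟩ := hcon T hT'
    refine mem_biUnion.mpr ⟨y, hy, ?_⟩
    by_cases h1 : y ∈ forcd X H F σ T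
    · refine mem_union_right _ (mem_image.mpr ⟨Y0 \ T, mem_filter.mpr
        ⟨mem_powerset.mpr sdiff_subset, ?_⟩, ?_⟩)
      · rw [Finset.sdiff_sdiff_eq_self hT']
        exact h1
      · exact Finset.sdiff_sdiff_eq_self hT'
    · exact mem_union_left _ (mem_filter.mpr ⟨hT, hyb h1⟩)
  have hsum : 2 ^ Y0.card ≤ ∑ y ∈ Y0, 2 * (U y).card := by
    calc 2 ^ Y0.card = Y0.powerset.card := (card_powerset _).symm
      _ ≤ _ := card_le_card hcover
      _ ≤ ∑ y ∈ Y0, (U y ∪ (U y).image (fun B => Y0 \ B)).card := card_biUnion_le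
      _ ≤ _ := by
          refine sum_le_sum (fun y _ => (card_union_le _ _).trans ?_)
          have : ((U y).image (fun B => Y0 \ B)).card ≤ (U y).card := card_image_le
          omega
  have hex : ∃ y ∈ Y0, 2 ^ Y0.card ≤ 2 * Y0.card * (U y).card := by
    by_contra hno
    push Not at hno
    have hne : Y0.Nonempty := by
      rw [nonempty_iff_ne_empty]
      intro h
      rw [h] at hsum
      simp at hsum
    have h1 : ∑ y ∈ Y0, Y0.card * (2 * (U y).card) < ∑ _y ∈ Y0, 2 ^ Y0.card := by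
      refine sum_lt_sum_of_nonempty hne (fun y hy => ?_)
      have := hno y hy
      calc Y0.card * (2 * (U y).card) = 2 * Y0.card * (U y).card := by ring
        _ < _ := this
    rw [← mul_sum, sum_const, smul_eq_mul] at h1
    exact absurd (Nat.mul_le_mul_left Y0.card hsum) (not_le.mpr h1)
  obtain ⟨y, -, hy⟩ := hex
  have h1 : ((2 : ℝ) ^ r) ^ Y0.card ≤ (2 * Y0.card) ^ r * (U y).card ^ r := by
    have h2 : ((2 : ℝ) ^ Y0.card) ^ r ≤ (2 * Y0.card * (U y).card) ^ r := by
      have : ((2 : ℝ) ^ Y0.card) ≤ 2 * Y0.card * (U y).card := by exact_mod_cast hy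
      exact pow_le_pow_left₀ (by positivity) this r
    calc ((2 : ℝ) ^ r) ^ Y0.card = ((2 : ℝ) ^ Y0.card) ^ r := by
          rw [← pow_mul, mul_comm, pow_mul]
      _ ≤ _ := h2
      _ = _ := by rw [mul_pow]
  have h2 : ((2 * Y0.card) ^ r : ℝ) < (2 ^ (r - 1)) ^ t := by exact_mod_cast hY0
  have h3 := hpow y
  have h4 : (0 : ℝ) < (2 ^ r) ^ Y0.card := by positivity
  have h5 : ((2 : ℝ) ^ r) ^ Y0.card * (2 ^ (r - 1)) ^ t ≤ (2 * Y0.card) ^ r * (2 ^ r) ^ Y0.card := by
    calc ((2 : ℝ) ^ r) ^ Y0.card * (2 ^ (r - 1)) ^ t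
        ≤ ((2 * Y0.card) ^ r * (U y).card ^ r) * (2 ^ (r - 1)) ^ t := by gcongr
      _ = (2 * Y0.card) ^ r * ((U y).card ^ r * (2 ^ (r - 1)) ^ t) := by ring
      _ ≤ _ := by gcongr
  have h6 : ((2 : ℝ) ^ r) ^ Y0.card * (2 ^ (r - 1)) ^ t ≤ (2 ^ r) ^ Y0.card * (2 * Y0.card) ^ r := by
    linarith
  have h7 := le_of_mul_le_mul_left h6 h4
  linarith

end Stage

end Pool.Agent.Lib_MP_e12783_co
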