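import Mathlib
import Pool.Agent.Lib_MP_e12783_co.Main
import Pool.Agent.Lib_MP_e12783_co.Stage

set_option autoImplicit false

/-!
# Digraphs with few exceptional vertices split
-/

namespace Pool.Agent.Lib_MP_e12783_co

open Finset

variable {V : Type*} [Fintype V] [DecidableEq V]

theorem few_two (σ : ℕ) : few 2 2 σ = σ + 1 := by
  unfold few
  rw [sum_range_succ, sum_range_succ, sum_range_zero]
  simp
  ring

/-- One colour class of the final colouring. -/
theorem count_aux (N : V → Finset V) (X : V → Prop) [DecidablePred X] (H F : V → Finset V)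
    (σ : ℕ) (hσ : 1 ≤ σ) (Y0 T : Finset V) (_hT : T ⊆ Y0) (b : Bool) (c : V → Bool)
    (hH : ∀ v, X v → H v ⊆ N v) (hF : ∀ v, ¬ X v → F v ⊆ N v \ Y0)
    (hcT : ∀ v ∈ T, c v = b)
    (hforced : ∀ v, v ∉ Y0 → v ∈ forcd X H F σ (Y0 \ T) → v ∉ forcd X H F σ T → c v = b)
    (hfree : ∀ v, ¬ X v →
      σ ≤ ((F v \ forcd X H F σ T) \ forcd X H F σ (Y0 \ T)).card → 2 ≤ ((F v).filter (fun u => c u = b)).card)
    (v : V) (hv : v ∉ forcd X H F σ T) : 2 ≤ ((N v).filter (fun u => c u = b)).card := by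
  by_cases hX : X v
  · have h1 : ¬ (H v ∩ T).card ≤ σ := fun h => hv (mem_forcd_of_X X H F σ T v hX h)
    have h2 : H v ∩ T ⊆ (N v).filter (fun u => c u = b) := by
      intro u hu
      rw [mem_inter] at hu
      exact mem_filter.mpr ⟨hH v hX hu.1, hcT u hu.2⟩
    have h3 := card_le_card h2
    omega
  · have h1 : ¬ (F v \ forcd X H F σ T).card ≤ σ := fun h => hv (mem_forcd_of_not_X X H F σ T v hX h)
    by_cases h2 : σ ≤ ((F v \ forcd X H F σ T) \ forcd X H F σ (Y0 \ T)).card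
    · refine (hfree v hX h2).trans (card_le_card ?_)
      exact filter_subset_filter _ ((hF v hX).trans sdiff_subset)
    · have h3 : ((F v \ forcd X H F σ T) ∩ forcd X H F σ (Y0 \ T)).card +
          ((F v \ forcd X H F σ T) \ forcd X H F σ (Y0 \ T)).card = (F v \ forcd X H F σ T).card :=
        card_inter_add_card_sdiff _ _
      have h4 : (F v \ forcd X H F σ T) ∩ forcd X H F σ (Y0 \ T) ⊆ (N v).filter (fun u => c u = b) := by
        intro u hu
        obtain ⟨h5, h6⟩ := mem_inter.mp hu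
        obtain ⟨h7, h8⟩ := mem_sdiff.mp h5
        have h9 := mem_sdiff.mp (hF v hX h7)
        exact mem_filter.mpr ⟨h9.1, hforced u h9.2 h6 h8⟩
      have h5 := card_le_card h4
      omega

/-- The colouring for an assignment with bounded loads. -/
theorem hub_coloring [Nonempty V] (N : V → Finset V) (d r σ Δ : ℕ) (hr : 3 ≤ r) (hσ : 1 ≤ σ)
    (hσd : 2 * r * σ < d) (hcond : 4 * (σ * Δ) * (2 * (σ + 1)) ≤ 2 ^ σ)
    (Y0 : Finset V) (hY0 : (2 * Y0.card) ^ r < (2 ^ (r - 1)) ^ (d - 2 * r * σ))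
    {J : Type*} [Fintype J] [DecidableEq J] (Fj : J → Finset V)
    (hload : ∀ u, (univ.filter (fun j => u ∈ Fj j)).card ≤ Δ)
    (hFj : ∀ v, (N v ∩ Y0).card < d - r * σ → ∃ j, Fj j ⊆ N v \ Y0 ∧ (Fj j).card = r * σ + 1) :
    ∃ c : V → Bool, (∀ v, 2 ≤ ((N v).filter (fun u => c u = c v)).card) ∧ ∀ b, ∃ v, c v = b := by
  classical
  have hrσ : 3 * σ ≤ r * σ := Nat.mul_le_mul_right _ hr
  have h2rσ : 2 * r * σ = r * σ + r * σ := by ring
  have : Nonempty (Fin r) := ⟨⟨0, by omega⟩⟩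
  let X : V → Prop := fun v => d - r * σ ≤ (N v ∩ Y0).card
  let H : V → Finset V := fun v => N v ∩ Y0
  have hex : ∀ v, ∃ F : Finset V, ¬ X v → (F ⊆ N v \ Y0 ∧ F.card = r * σ + 1 ∧ ∃ j, Fj j = F) := by
    intro v
    by_cases hX : X v
    · exact ⟨∅, fun h => absurd hX h⟩
    · obtain ⟨j, h1, h2⟩ := hFj v (not_le.mp hX)
      exact ⟨Fj j, fun _ => ⟨h1, h2, j, rfl⟩⟩
  choose F hFspec using hex
  have hFN : ∀ v, ¬ X v → F v ⊆ N v \ Y0 := fun v h => (hFspec v h).1
  have hFcard : ∀ v, ¬ X v → (F v).card = r * σ + 1 := fun v h => (hFspec v h).2.1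
  have hFr : ∀ v, ¬ X v → r * σ < (F v).card := fun v h => by rw [hFcard v h]; omega
  have hHX : ∀ v, X v → H v ⊆ Y0 ∧ (d - 2 * r * σ) + r * σ ≤ (H v).card := by
    intro v hX
    refine ⟨inter_subset_right, ?_⟩
    have : d - r * σ ≤ (N v ∩ Y0).card := hX
    change (d - 2 * r * σ) + r * σ ≤ (N v ∩ Y0).card
    omega
  obtain ⟨T, hTY, hTgood⟩ := exists_good X H F σ Y0 r (d - 2 * r * σ) hr hFr hHX hY0
  have hleaf : ∀ (T1 T2 : Finset V) (v : V), v ∈ forcd X H F σ T1 → v ∈ forcd X H F σ T2 →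
      ∃ x, X x ∧ (H x ∩ T1).card ≤ σ ∧ (H x ∩ T2).card ≤ σ := by
    intro T1 T2 v h1 h2
    obtain ⟨x, hx, hc⟩ := forcd_leaf X H F σ (ι := Fin r) (by simpa using hFr)
      (fun i => if i = ⟨0, by omega⟩ then T1 else T2) v (by
        intro i
        by_cases hi : i = ⟨0, by omega⟩
        · simpa [hi] using h1
        · simpa [hi] using h2)
    refine ⟨x, hx, ?_, ?_⟩
    · simpa using hc ⟨0, by omega⟩
    · have := hc ⟨1, by omega⟩
      simpa using this
  -- no vertex is forced in both ways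
  have hnotboth : ∀ v, v ∈ forcd X H F σ T → v ∉ forcd X H F σ (Y0 \ T) := by
    intro v h1 h2
    obtain ⟨x, hx, c1, c2⟩ := hleaf T (Y0 \ T) v h1 h2
    obtain ⟨hx1, hx2⟩ := hHX x hx
    have hsub : H x ⊆ (H x ∩ T) ∪ (H x ∩ (Y0 \ T)) := by
      intro u hu
      by_cases a : u ∈ T
      · exact mem_union_left _ (mem_inter.mpr ⟨hu, a⟩)
      · exact mem_union_right _ (mem_inter.mpr ⟨hu, mem_sdiff.mpr ⟨hx1 hu, a⟩⟩)
    have e1 := card_le_card hsub
    have e2 := card_union_le (H x ∩ T) (H x ∩ (Y0 \ T))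
    omega
  -- the free vertices
  set Free : Finset V := (univ \ forcd X H F σ T) \ forcd X H F σ (Y0 \ T) with hFree
  let J' := {j : J // σ ≤ (Fj j ∩ Free).card}
  have hL : ∀ j : J', ∃ L ⊆ Fj j.1 ∩ Free, L.card = σ := fun j => exists_subset_card_eq j.2
  choose L hLsub hLcard using hL
  have hLload : ∀ u, (univ.filter (fun j : J' => u ∈ L j)).card ≤ Δ := by
    intro u
    refine le_trans ?_ (hload u)
    refine card_le_card_of_injOn (fun j => j.1) ?_ (fun i _ j _ h => Subtype.ext h)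
    intro j hj
    have hj := mem_coe.mp hj
    exact mem_coe.mpr (mem_filter.mpr ⟨mem_univ _, (mem_inter.mp (hLsub j (mem_filter.mp hj).2)).1⟩)
  have hcond' : 4 * (σ * Δ) * (Fintype.card Bool * few (Fintype.card Bool) 2 σ) ≤
      Fintype.card Bool ^ σ := by
    rw [Fintype.card_bool, few_two]
    exact hcond
  obtain ⟨f, hf⟩ := exists_coloring (C := Bool) L 2 σ Δ hσ hLcard hLload hcond'
  let c : V → Bool := fun v => if v ∈ Y0 then decide (v ∈ T) else
    if v ∈ forcd X H F σ T then false else if v ∈ forcd X H F σ (Y0 \ T) then true else f v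
  have hfreeb : ∀ b : Bool, ∀ v, ¬ X v →
      σ ≤ (F v ∩ Free).card → 2 ≤ ((F v).filter (fun u => c u = b)).card := by
    intro b v hX hcard
    obtain ⟨hF1, -, j, hj⟩ := hFspec v hX
    have hj' : σ ≤ (Fj j ∩ Free).card := by rw [hj]; exact hcard
    refine (hf ⟨j, hj'⟩ b).trans (card_le_card ?_)
    intro u hu
    obtain ⟨hu1, hu2⟩ := mem_filter.mp hu
    obtain ⟨hu3, hu4⟩ := mem_inter.mp (hLsub _ hu1)
    change u ∈ Fj j at hu3
    rw [hj] at hu3
    obtain ⟨hu5, hu6⟩ := mem_sdiff.mp hu4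
    have hu7 := (mem_sdiff.mp hu5).2
    have hu8 := (mem_sdiff.mp (hF1 hu3)).2
    refine mem_filter.mpr ⟨hu3, ?_⟩
    simp only [c, hu8, hu7, hu6, if_false]
    exact hu2
  have htrue : ∀ v, v ∉ forcd X H F σ T → 2 ≤ ((N v).filter (fun u => c u = true)).card := by
    intro v hv
    refine count_aux N X H F σ hσ Y0 T hTY true c (fun v _ => inter_subset_left) hFN ?_ ?_ ?_ v hv
    · intro u hu
      simp only [c, hTY hu, hu, if_true, decide_true]
    · intro u hu1 hu2 hu3
      simp only [c, hu1, hu2, hu3, if_true, if_false]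
    · intro u hX hcard
      refine hfreeb true u hX (hcard.trans (card_le_card ?_))
      intro w hw
      obtain ⟨hw1, hw2⟩ := mem_sdiff.mp hw
      obtain ⟨hw3, hw4⟩ := mem_sdiff.mp hw1
      exact mem_inter.mpr ⟨hw3, mem_sdiff.mpr ⟨mem_sdiff.mpr ⟨mem_univ _, hw4⟩, hw2⟩⟩
  have hfalse : ∀ v, v ∉ forcd X H F σ (Y0 \ T) → 2 ≤ ((N v).filter (fun u => c u = false)).card := by
    intro v hv
    have hTT : Y0 \ (Y0 \ T) = T := Finset.sdiff_sdiff_eq_self hTY
    refine count_aux N X H F σ hσ Y0 (Y0 \ T) sdiff_subset false c (fun v _ => inter_subset_left)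
      hFN ?_ ?_ ?_ v hv
    · intro u hu
      obtain ⟨hu1, hu2⟩ := mem_sdiff.mp hu
      simp only [c, hu1, hu2, if_true, decide_false]
    · rw [hTT]
      intro u hu1 hu2 hu3
      simp only [c, hu1, hu2, if_true, if_false]
    · rw [hTT]
      intro u hX hcard
      refine hfreeb false u hX (hcard.trans (card_le_card ?_))
      intro w hw
      obtain ⟨hw1, hw2⟩ := mem_sdiff.mp hw
      obtain ⟨hw3, hw4⟩ := mem_sdiff.mp hw1
      exact mem_inter.mpr ⟨hw3, mem_sdiff.mpr ⟨mem_sdiff.mpr ⟨mem_univ _, hw2⟩, hw4⟩⟩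
  refine ⟨c, ?_, ?_⟩
  · intro v
    by_cases hY : v ∈ Y0
    · obtain ⟨g1, g2⟩ := hTgood v hY
      rcases hcv : c v with _ | _
      · exact hfalse v g2
      · exact htrue v g1
    · by_cases hb1 : v ∈ forcd X H F σ T
      · have hcv : c v = false := by simp only [c, hY, hb1, if_true, if_false]
        rw [hcv]
        exact hfalse v (hnotboth v hb1)
      · by_cases hb2 : v ∈ forcd X H F σ (Y0 \ T)
        · have hcv : c v = true := by simp only [c, hY, hb1, hb2, if_true, if_false]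
          rw [hcv]
          exact htrue v hb1
        · rcases hcv : c v with _ | _
          · exact hfalse v hb2
          · exact htrue v hb1
  · -- both colours are used
    have hgood : ∃ v, v ∉ forcd X H F σ T ∧ v ∉ forcd X H F σ (Y0 \ T) := by
      rcases Y0.eq_empty_or_nonempty with h0 | ⟨y, hy⟩
      · obtain ⟨v⟩ := ‹Nonempty V›
        have hno : ∀ T', v ∉ forcd X H F σ T' := by
          intro T' hv
          obtain ⟨x, hx, -⟩ := hleaf T' T' v hv hv
          obtain ⟨hx1, hx2⟩ := hHX x hx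
          rw [h0] at hx1
          have : H x = ∅ := subset_empty.mp hx1
          rw [this, card_empty] at hx2
          omega
        exact ⟨v, hno _, hno _⟩
      · exact ⟨y, hTgood y hy⟩
    obtain ⟨v, hv1, hv2⟩ := hgood
    intro b
    rcases b with _ | _
    · obtain ⟨u, hu⟩ := card_pos.mp (lt_of_lt_of_le two_pos (hfalse v hv2))
      exact ⟨u, (mem_filter.mp hu).2⟩
    · obtain ⟨u, hu⟩ := card_pos.mp (lt_of_lt_of_le two_pos (htrue v hv1))
      exact ⟨u, (mem_filter.mp hu).2⟩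

theorem hub_main [Nonempty V] (N : V → Finset V) (hN : ∀ v, v ∉ N v) (d k r σ : ℕ) (hr : 3 ≤ r)
    (hσ : 1 ≤ σ) (hk : 1 ≤ k) (hσd : 2 * r * σ < d)
    (hcond : 16 * (r + 1) * k * d * σ ^ 2 * (σ + 1) ≤ 2 ^ σ)
    (hdeg : ∀ v, d ≤ (N v).card)
    (Y0 : Finset V) (hY0 : (2 * Y0.card) ^ r < (2 ^ (r - 1)) ^ (d - 2 * r * σ)) :
    (∃ c : V → Bool, (∀ v, 2 ≤ ((N v).filter (fun u => c u = c v)).card) ∧ ∀ b, ∃ v, c v = b) ∨
    ∃ I Y : Finset V, Y.Nonempty ∧ Disjoint Y Y0 ∧ Disjoint I Y ∧ (∀ u ∈ I, ∀ v ∈ I, u ∉ N v) ∧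
      (∀ u ∈ I, ∀ v ∈ I, N u = N v → u = v) ∧ k * Y.card < I.card ∧
      ∀ v ∈ I, (N v \ Y).card < d := by
  classical
  have h2rσ : 2 * r * σ = r * σ + r * σ := by ring
  let J := {x : Finset V // ∃ v, N v = x ∧ (N v ∩ Y0).card < d - r * σ}
  let N' : J → Finset V := fun j => j.1 \ Y0
  set d1 := r * σ + 1 with hd1
  set Δ := d1 * (1 + k * (2 * d - 1)) with hΔ
  by_cases hall : ∀ (X : Finset J) (Y : Finset V),
      d1 * X.card ≤ ∑ j ∈ X, (N' j \ Y).card + Δ * Y.card
  · left
    obtain ⟨F, hF, hload⟩ := exists_assign N' d1 Δ hall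
    have hcond' : 4 * (σ * Δ) * (2 * (σ + 1)) ≤ 2 ^ σ := by
      refine le_trans ?_ hcond
      have h1 : Δ ≤ ((r + 1) * σ) * (2 * k * d) := by
        rw [hΔ]
        refine Nat.mul_le_mul (by rw [hd1]; nlinarith) ?_
        obtain ⟨e, rfl⟩ : ∃ e, d = e + 1 := ⟨d - 1, by omega⟩
        have : 2 * (e + 1) - 1 = 2 * e + 1 := by omega
        rw [this]
        nlinarith
      calc 4 * (σ * Δ) * (2 * (σ + 1))
          ≤ 4 * (σ * (((r + 1) * σ) * (2 * k * d))) * (2 * (σ + 1)) := by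
            gcongr
        _ = 16 * (r + 1) * k * d * σ ^ 2 * (σ + 1) := by ring
    refine hub_coloring N d r σ Δ hr hσ hσd hcond' Y0 hY0 F hload ?_
    intro v hv
    exact ⟨⟨N v, v, rfl, hv⟩, (hF _).1, (hF _).2⟩
  · right
    push Not at hall
    obtain ⟨X, Y', hXY'⟩ := hall
    set Y := Y' \ Y0 with hYdef
    have hN'Y : ∀ j, N' j \ Y' = N' j \ Y := by
      intro j
      ext u
      simp only [N', hYdef, mem_sdiff]
      tauto
    have hXY : ∑ j ∈ X, (N' j \ Y).card + Δ * Y.card < d1 * X.card := by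
      refine lt_of_le_of_lt ?_ hXY'
      refine Nat.add_le_add ?_ (Nat.mul_le_mul_left _ (card_le_card sdiff_subset))
      exact sum_le_sum (fun j _ => by rw [hN'Y])
    have hYY0 : Disjoint Y Y0 := disjoint_sdiff_self_left
    set X' := X.filter (fun j => (N' j \ Y).card < d1) with hX'
    have h1 : Δ * Y.card < d1 * X'.card := by
      have hsplit : ∑ j ∈ X, (N' j \ Y).card = ∑ j ∈ X', (N' j \ Y).card +
          ∑ j ∈ X.filter (fun j => ¬ (N' j \ Y).card < d1), (N' j \ Y).card :=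
        (sum_filter_add_sum_filter_not X _ _).symm
      have hcard : X.card = X'.card + (X.filter (fun j => ¬ (N' j \ Y).card < d1)).card :=
        (card_filter_add_card_filter_not (s := X) (fun j => (N' j \ Y).card < d1)).symm
      have h2 : ∑ _j ∈ X.filter (fun j => ¬ (N' j \ Y).card < d1), d1 ≤
          ∑ j ∈ X.filter (fun j => ¬ (N' j \ Y).card < d1), (N' j \ Y).card :=
        sum_le_sum (fun j hj => not_lt.mp (mem_filter.mp hj).2)
      rw [sum_const, smul_eq_mul] at h2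
      rw [hsplit, hcard] at hXY
      have h3 : 0 ≤ ∑ j ∈ X', (N' j \ Y).card := Nat.zero_le _
      nlinarith
    have h2 : (1 + k * (2 * d - 1)) * Y.card < X'.card := by
      have : d1 * ((1 + k * (2 * d - 1)) * Y.card) < d1 * X'.card := by
        rw [← mul_assoc]; exact h1
      exact Nat.lt_of_mul_lt_mul_left this
    let rep : J → V := fun j => j.2.choose
    have hrep : ∀ j, N (rep j) = j.1 := fun j => j.2.choose_spec.1
    have hrep2 : ∀ j, (N (rep j) ∩ Y0).card < d - r * σ := fun j => j.2.choose_spec.2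
    have repinj : Function.Injective rep := by
      intro i j hij
      apply Subtype.ext
      rw [← hrep i, ← hrep j, hij]
    set M := (X'.image rep) \ Y with hM
    have hMcard : k * (2 * d - 1) * Y.card < M.card := by
      have h3 : (X'.image rep).card = X'.card := card_image_of_injective _ repinj
      have h4 : (X'.image rep).card ≤ M.card + Y.card := by
        calc (X'.image rep).card ≤ (((X'.image rep) \ Y) ∪ Y).card :=
              card_le_card (by rw [sdiff_union_self_eq_union]; exact subset_union_left)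
          _ ≤ _ := card_union_le _ _
      nlinarith
    have himdeg : ∀ j ∈ X', (N (rep j) \ Y).card < d := by
      intro j hj
      have k1 : ((N (rep j) \ Y0) \ Y).card < d1 := by
        rw [hrep]
        exact (mem_filter.mp hj).2
      have k2 := hrep2 j
      have k3 : N (rep j) \ Y ⊆ ((N (rep j) \ Y0) \ Y) ∪ (N (rep j) ∩ Y0) := by
        intro u hu
        obtain ⟨hu1, hu2⟩ := mem_sdiff.mp hu
        by_cases hu3 : u ∈ Y0
        · exact mem_union_right _ (mem_inter.mpr ⟨hu1, hu3⟩)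
        · exact mem_union_left _ (mem_sdiff.mpr ⟨mem_sdiff.mpr ⟨hu1, hu3⟩, hu2⟩)
      have k4 := (card_le_card k3).trans (card_union_le _ _)
      omega
    have hMdeg : ∀ v ∈ M, (N v \ Y).card < d := by
      intro v hv
      obtain ⟨hv1, -⟩ := mem_sdiff.mp hv
      obtain ⟨j, hj, rfl⟩ := mem_image.mp hv1
      exact himdeg j hj
    have hMinj : ∀ u ∈ M, ∀ v ∈ M, N u = N v → u = v := by
      intro u hu v hv huv
      obtain ⟨i, -, rfl⟩ := mem_image.mp (mem_sdiff.mp hu).1
      obtain ⟨j, -, rfl⟩ := mem_image.mp (mem_sdiff.mp hv).1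
      rw [hrep, hrep] at huv
      rw [Subtype.ext huv]
    obtain ⟨I, hIM, hind, hIcard⟩ := exists_indep N hN d M.card M rfl (by
      intro v hv
      refine lt_of_le_of_lt (card_le_card ?_) (hMdeg v hv)
      intro u hu
      rw [mem_inter] at hu
      exact mem_sdiff.mpr ⟨hu.1, (mem_sdiff.mp hu.2).2⟩)
    refine ⟨I, Y, ?_, hYY0, ?_, hind, ?_, ?_, ?_⟩
    · -- Y is nonempty
      rw [nonempty_iff_ne_empty]
      intro hY
      have hX'pos : 0 < X'.card := lt_of_le_of_lt (Nat.zero_le _) h2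
      obtain ⟨j, hj⟩ := card_pos.mp hX'pos
      have h3 := himdeg j hj
      rw [hY, sdiff_empty] at h3
      exact absurd h3 (not_lt.mpr (hdeg _))
    · rw [disjoint_left]
      intro x hx
      exact (mem_sdiff.mp (hIM hx)).2
    · exact fun u hu v hv => hMinj u (hIM hu) v (hIM hv)
    · have h3 : (2 * d - 1) * (k * Y.card) < (2 * d - 1) * I.card := by
        calc (2 * d - 1) * (k * Y.card) = k * (2 * d - 1) * Y.card := by ring
          _ < M.card := hMcard
          _ ≤ _ := hIcard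
      exact Nat.lt_of_mul_lt_mul_left h3
    · exact fun v hv => hMdeg v (hIM hv)

end Pool.Agent.Lib_MP_e12783_co
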