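import Mathlib
import Pool.Agent.Lib_MP_e12783_co.Main

set_option autoImplicit false

/-!
# Legs

In a digraph with minimum outdegree `≥ d` which is vertex minimal with this property, every vertex `v`
is the end of a connected set `K v` of `ℓ` vertices whose other vertices have small outdegree; every
vertex is in few of these sets.
-/

namespace Pool.Agent.Lib_MP_e12783_co

open Finset

variable {V : Type*} [DecidableEq V]

/-- vertices reachable from `x` in at most `j` steps through vertices of outdegree at most `b` -/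
def rball (N : V → Finset V) (b : ℕ) : ℕ → V → Finset V
  | 0, x => {x}
  | j + 1, x => rball N b j x ∪ (if (N x).card ≤ b then (N x).biUnion (rball N b j) else ∅)

theorem rball_card (N : V → Finset V) (b j : ℕ) (x : V) : (rball N b j x).card ≤ (b + 1) ^ j := by
  induction j generalizing x with
  | zero => simp [rball]
  | succ j ih =>
    rw [rball]
    refine (card_union_le _ _).trans ?_
    have h2 : (if (N x).card ≤ b then (N x).biUnion (rball N b j) else ∅).card ≤
        b * (b + 1) ^ j := by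
      split_ifs with h
      · refine card_biUnion_le.trans ?_
        calc ∑ u ∈ N x, (rball N b j u).card ≤ ∑ _u ∈ N x, (b + 1) ^ j :=
              sum_le_sum (fun u _ => ih u)
          _ = (N x).card * (b + 1) ^ j := by rw [sum_const, smul_eq_mul]
          _ ≤ _ := Nat.mul_le_mul_right _ h
      · simp
    calc (rball N b j x).card + _ ≤ (b + 1) ^ j + b * (b + 1) ^ j := Nat.add_le_add (ih x) h2
      _ = (b + 1) ^ (j + 1) := by ring

/-- `K` is a leg ending in `v`: all vertices of `K` reach `v` inside `K`. -/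
def Reaches (N : V → Finset V) (K : Finset V) (v : V) : Prop :=
  ∀ x ∈ K, Relation.ReflTransGen (fun a b => a ∈ K ∧ b ∈ K ∧ b ∈ N a) x v

variable [Fintype V]

theorem exists_leg (N : V → Finset V) (d b : ℕ) (hdeg : ∀ v, d ≤ (N v).card)
    (hmin : ∀ K : Finset V, K.Nonempty → K ≠ univ → ∃ z ∉ K, (N z \ K).card < d) (v : V) :
    ∀ j : ℕ, j + 1 ≤ Fintype.card V → d + j ≤ b + 1 →
      ∃ K : Finset V, v ∈ K ∧ K.card = j + 1 ∧ (∀ x ∈ K, x ≠ v → (N x).card ≤ b) ∧
        (∀ x ∈ K, v ∈ rball N b j x) ∧ Reaches N K v := by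
  intro j
  induction j with
  | zero =>
    intro _ _
    refine ⟨{v}, mem_singleton_self _, card_singleton _, ?_, ?_, ?_⟩
    · intro x hx hxv
      exact absurd (mem_singleton.mp hx) hxv
    · intro x hx
      rw [mem_singleton.mp hx, rball]
      exact mem_singleton_self _
    · intro x hx
      rw [mem_singleton.mp hx]
  | succ j ih =>
    intro hj hb
    obtain ⟨K, hvK, hcard, hout, hball, hreach⟩ := ih (by omega) (by omega)
    have hne : K ≠ univ := by
      intro h
      rw [h, card_univ] at hcard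
      omega
    obtain ⟨z, hz, hzd⟩ := hmin K ⟨v, hvK⟩ hne
    have hzN : (N z).card ≤ b := by
      have h1 : (N z).card ≤ (N z \ K).card + K.card := by
        calc (N z).card ≤ ((N z \ K) ∪ K).card :=
              card_le_card (by rw [sdiff_union_self_eq_union]; exact subset_union_left)
          _ ≤ _ := card_union_le _ _
      omega
    have hzK : (N z ∩ K).Nonempty := by
      rw [nonempty_iff_ne_empty]
      intro he
      have h3 : N z \ K = N z :=
        Finset.sdiff_eq_self_iff_disjoint.mpr (Finset.disjoint_iff_inter_eq_empty.mpr he)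
      rw [h3] at hzd
      exact absurd hzd (not_lt.mpr (hdeg z))
    obtain ⟨w, hw⟩ := hzK
    rw [mem_inter] at hw
    have hsub : K ⊆ insert z K := subset_insert _ _
    have hmono : ∀ a c : V, Relation.ReflTransGen (fun a b => a ∈ K ∧ b ∈ K ∧ b ∈ N a) a c →
        Relation.ReflTransGen (fun a b => a ∈ insert z K ∧ b ∈ insert z K ∧ b ∈ N a) a c := by
      intro a c h
      induction h with
      | refl => exact Relation.ReflTransGen.refl
      | tail _ hbc ih => exact ih.tail ⟨hsub hbc.1, hsub hbc.2.1, hbc.2.2⟩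
    refine ⟨insert z K, mem_insert_of_mem hvK, ?_, ?_, ?_, ?_⟩
    · rw [card_insert_of_notMem hz, hcard]
    · intro x hx hxv
      rcases mem_insert.mp hx with rfl | hx
      · exact hzN
      · exact hout x hx hxv
    · intro x hx
      rw [rball]
      rcases mem_insert.mp hx with rfl | hx
      · refine mem_union_right _ ?_
        rw [if_pos hzN]
        exact mem_biUnion.mpr ⟨w, hw.1, hball w hw.2⟩
      · exact mem_union_left _ (hball x hx)
    · intro x hx
      rcases mem_insert.mp hx with rfl | hx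
      · exact Relation.ReflTransGen.head ⟨mem_insert_self _ _, hsub hw.2, hw.1⟩
          (hmono _ _ (hreach w hw.2))
      · exact hmono _ _ (hreach x hx)

/-- Many legs with a common out-neighbour `y`. -/
structure IsLegs (N : V → Finset V) (ℓ m : ℕ) (y : V) (P : Finset V) (K : V → Finset V) : Prop where
  card : m < P.card
  mem : ∀ v ∈ P, v ∈ K v
  size : ∀ v ∈ P, (K v).card = ℓ
  notMem : ∀ v ∈ P, y ∉ K v
  adj : ∀ v ∈ P, y ∈ N v
  reach : ∀ v ∈ P, Reaches N (K v) v
  disj : ∀ u ∈ P, ∀ v ∈ P, u ≠ v → Disjoint (K u) (K v)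
  anti : ∀ u ∈ P, ∀ v ∈ P, u ≠ v → ∀ a ∈ K u, ∀ c ∈ K v, c ∉ N a

theorem exists_legs (N : V → Finset V) (d ℓ m : ℕ) (hd : 1 ≤ d) (hℓ : 1 ≤ ℓ)
    (hm : 1 ≤ m) (hℓV : ℓ ≤ Fintype.card V) (hdeg : ∀ v, d ≤ (N v).card)
    (hmin : ∀ K : Finset V, K.Nonempty → K ≠ univ → ∃ z ∉ K, (N z \ K).card < d)
    (I Y : Finset V)
    (hcard : 3 * m * (ℓ * (d + ℓ) ^ ℓ) * Y.card < I.card)
    (hfew : ∀ v ∈ I, (N v \ Y).card < d) :
    ∃ y ∈ Y, ∃ P K, IsLegs N ℓ m y P K := by
  classical
  obtain ⟨j, rfl⟩ : ∃ j, ℓ = j + 1 := ⟨ℓ - 1, by omega⟩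
  set b := d + j - 1 with hb
  have hleg := fun v => exists_leg N d b hdeg hmin v j hℓV (by omega)
  choose K hvK hKcard hKout hKball hKreach using hleg
  set B := (b + 1) ^ j with hB
  have hoverlap : ∀ x : V, (univ.filter (fun v => x ∈ K v)).card ≤ B := by
    intro x
    refine le_trans (card_le_card ?_) (rball_card N b j x)
    intro v hv
    exact hKball v x (mem_filter.mp hv).2
  set g := (j + 1) * (d + (j + 1)) ^ (j + 1) with hg
  have hBg : B ≤ g := by
    have h1 : B ≤ (d + (j + 1)) ^ j := Nat.pow_le_pow_left (by omega) j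
    have h2 : (d + (j + 1)) ^ j ≤ (d + (j + 1)) ^ (j + 1) :=
      Nat.pow_le_pow_right (by omega) (by omega)
    calc B ≤ (d + (j + 1)) ^ (j + 1) := h1.trans h2
      _ ≤ g := Nat.le_mul_of_pos_left _ (by omega)
  -- the legs which avoid Y
  set I' := I.filter (fun v => Disjoint (K v) Y) with hI'
  have hI'card : 2 * m * g * Y.card < I'.card := by
    have h1 : I \ I' ⊆ Y.biUnion (fun y => univ.filter (fun v => y ∈ K v)) := by
      intro v hv
      obtain ⟨hv1, hv2⟩ := mem_sdiff.mp hv
      have : ¬ Disjoint (K v) Y := fun h => hv2 (mem_filter.mpr ⟨hv1, h⟩)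
      rw [not_disjoint_iff] at this
      obtain ⟨y, hy1, hy2⟩ := this
      exact mem_biUnion.mpr ⟨y, hy2, mem_filter.mpr ⟨mem_univ _, hy1⟩⟩
    have h2 : (I \ I').card ≤ g * Y.card := by
      calc (I \ I').card ≤ _ := card_le_card h1
        _ ≤ ∑ y ∈ Y, (univ.filter (fun v => y ∈ K v)).card := card_biUnion_le
        _ ≤ ∑ _y ∈ Y, g := sum_le_sum (fun y _ => (hoverlap y).trans hBg)
        _ = g * Y.card := by rw [sum_const, smul_eq_mul, mul_comm]
    have h3 : (I \ I').card + I'.card = I.card :=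
      card_sdiff_add_card_eq_card (filter_subset _ _)
    have h4 : 2 * m * g * Y.card + g * Y.card ≤ 3 * m * g * Y.card := by
      have : g * Y.card ≤ m * (g * Y.card) := Nat.le_mul_of_pos_left _ hm
      nlinarith
    omega
  -- the conflict digraph
  let Nc : V → Finset V := fun v => I'.filter (fun v' => v' ≠ v ∧
    ∃ x ∈ K v, ∃ x' ∈ K v', x = x' ∨ x' ∈ N x)
  have hNc : ∀ v, v ∉ Nc v := by
    intro v hv
    exact (mem_filter.mp hv).2.1 rfl
  have hNcdeg : ∀ v ∈ I', (Nc v ∩ I').card < g := by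
    intro v hv
    obtain ⟨hvI, hvY⟩ := mem_filter.mp hv
    set T := K v ∪ (K v).biUnion (fun x => N x \ Y) with hT
    have hTcard : T.card ≤ (j + 1) + ((d - 1) + j * b) := by
      refine (card_union_le _ _).trans ?_
      rw [hKcard]
      refine Nat.add_le_add_left ?_ _
      refine card_biUnion_le.trans ?_
      rw [← add_sum_erase (K v) _ (hvK v)]
      refine Nat.add_le_add ?_ ?_
      · have := hfew v hvI
        omega
      · calc ∑ x ∈ (K v).erase v, (N x \ Y).card ≤ ∑ _x ∈ (K v).erase v, b := by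
              refine sum_le_sum (fun x hx => ?_)
              rw [mem_erase] at hx
              exact (card_le_card sdiff_subset).trans (hKout v x hx.2 hx.1)
          _ = j * b := by
              rw [sum_const, smul_eq_mul, card_erase_of_mem (hvK v), hKcard]
              rfl
    have hsub : insert v (Nc v ∩ I') ⊆ T.biUnion (fun x' => univ.filter (fun v' => x' ∈ K v')) := by
      intro v' hv'
      rcases mem_insert.mp hv' with rfl | hv'
      · exact mem_biUnion.mpr ⟨v', mem_union_left _ (hvK v'), mem_filter.mpr ⟨mem_univ _, hvK v'⟩⟩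
      · obtain ⟨h1, h2⟩ := mem_inter.mp hv'
        obtain ⟨-, -, x, hx, x', hx', hxx⟩ := mem_filter.mp h1
        have hx'Y : x' ∉ Y := disjoint_left.mp (mem_filter.mp h2).2 hx'
        refine mem_biUnion.mpr ⟨x', ?_, mem_filter.mpr ⟨mem_univ _, hx'⟩⟩
        rcases hxx with rfl | hxx
        · exact mem_union_left _ hx
        · exact mem_union_right _ (mem_biUnion.mpr ⟨x, hx, mem_sdiff.mpr ⟨hxx, hx'Y⟩⟩)
    have h1 : (insert v (Nc v ∩ I')).card ≤ ((j + 1) + ((d - 1) + j * b)) * B := by
      calc _ ≤ _ := card_le_card hsub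
        _ ≤ ∑ x' ∈ T, (univ.filter (fun v' => x' ∈ K v')).card := card_biUnion_le
        _ ≤ ∑ _x' ∈ T, B := sum_le_sum (fun x _ => hoverlap x)
        _ = T.card * B := by rw [sum_const, smul_eq_mul]
        _ ≤ _ := Nat.mul_le_mul_right _ hTcard
    have hvn : v ∉ Nc v ∩ I' := fun h => hNc v (mem_inter.mp h).1
    rw [card_insert_of_notMem hvn] at h1
    have h2 : ((j + 1) + ((d - 1) + j * b)) * B ≤ g := by
      have h3 : (j + 1) + ((d - 1) + j * b) ≤ (j + 1) * (d + (j + 1)) := by
        rw [hb]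
        obtain ⟨e, rfl⟩ : ∃ e, d = e + 1 := ⟨d - 1, by omega⟩
        have h4 : e + 1 + j - 1 = e + j := by omega
        have h5 : e + 1 - 1 = e := by omega
        rw [h4, h5]
        nlinarith
      have h4 : B ≤ (d + (j + 1)) ^ j := Nat.pow_le_pow_left (by omega) j
      calc _ ≤ ((j + 1) * (d + (j + 1))) * (d + (j + 1)) ^ j := Nat.mul_le_mul h3 h4
        _ = g := by rw [hg]; ring
    omega
  obtain ⟨P, hPI', hPind, hPcard⟩ := exists_indep Nc hNc g I'.card I' rfl hNcdeg
  have hPI : P ⊆ I := hPI'.trans (filter_subset _ _)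
  have hPm : m * Y.card < P.card := by
    by_contra hcon
    push Not at hcon
    have h1 : I'.card ≤ (2 * g - 1) * (m * Y.card) := hPcard.trans (Nat.mul_le_mul_left _ hcon)
    have h2 : (2 * g - 1) * (m * Y.card) ≤ 2 * g * (m * Y.card) :=
      Nat.mul_le_mul_right _ (Nat.sub_le _ _)
    have h3 : 2 * g * (m * Y.card) = 2 * m * g * Y.card := by ring
    omega
  obtain ⟨y, hyY, hy⟩ := exists_star N d m hdeg P Y hPm (fun v hv => hfew v (hPI hv))
  refine ⟨y, hyY, P.filter (fun v => y ∈ N v), K, ?_⟩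
  have hnc : ∀ u ∈ P, ∀ v ∈ P, u ≠ v → ∀ x ∈ K u, ∀ x' ∈ K v, ¬ (x = x' ∨ x' ∈ N x) := by
    intro u hu v hv huv x hx x' hx' hcon
    exact hPind v hv u hu (mem_filter.mpr ⟨hPI' hv, huv.symm, x, hx, x', hx', hcon⟩)
  refine ⟨hy, ?_, ?_, ?_, ?_, ?_, ?_, ?_⟩
  · exact fun v _ => hvK v
  · exact fun v _ => hKcard v
  · intro v hv h
    exact disjoint_left.mp (mem_filter.mp (hPI' (mem_filter.mp hv).1)).2 h hyY
  · exact fun v hv => (mem_filter.mp hv).2
  · exact fun v _ => hKreach v
  · intro u hu v hv huv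
    rw [disjoint_left]
    intro x hx hx'
    exact hnc u (mem_filter.mp hu).1 v (mem_filter.mp hv).1 huv x hx x hx' (Or.inl rfl)
  · intro u hu v hv huv a ha c hc hac
    exact hnc u (mem_filter.mp hu).1 v (mem_filter.mp hv).1 huv a ha c hc (Or.inr hac)

end Pool.Agent.Lib_MP_e12783_co
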