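import Mathlib
import Pool.Agent.Lib_MP_e12783_co.Legs
import Pool.Agent.Lib_MP_e12783_co.Hub

set_option autoImplicit false

/-!
# Split or legs
-/

namespace Pool.Agent.Lib_MP_e12783_co

open Finset

variable {V C : Type*} [Fintype V] [DecidableEq V] [Fintype C] [DecidableEq C] [Nonempty C]

theorem ext_aux (N : V → Finset V) (s d : ℕ) (hs : 1 ≤ s) (hd : Fintype.card C * s ≤ d)
    (hdeg : ∀ v, d ≤ (N v).card) :
    ∀ (n : ℕ) (U : Finset V) (c : V → C), (univ \ U).card = n →
      (∀ v ∈ U, s ≤ ((N v ∩ U).filter (fun u => c u = c v)).card) →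
      ∃ c' : V → C, (∀ v ∈ U, c' v = c v) ∧
        ∀ v, s ≤ ((N v).filter (fun u => c' u = c' v)).card := by
  classical
  intro n
  induction n using Nat.strong_induction_on with
  | _ n ih =>
    intro U c hn hU
    by_cases hex : ∃ v, v ∉ U ∧ ∃ b : C, s ≤ ((N v ∩ U).filter (fun u => c u = b)).card
    · obtain ⟨v, hv, b, hb⟩ := hex
      have hlt : (univ \ insert v U).card < n := by
        rw [← hn]
        refine card_lt_card (Finset.ssubset_iff_subset_ne.mpr
          ⟨sdiff_subset_sdiff subset_rfl (subset_insert _ _), ?_⟩)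
        intro he
        have : v ∈ univ \ insert v U := by rw [he]; exact mem_sdiff.mpr ⟨mem_univ _, hv⟩
        exact (mem_sdiff.mp this).2 (mem_insert_self _ _)
      have hne : ∀ u ∈ U, u ≠ v := fun u hu h => hv (h ▸ hu)
      obtain ⟨c', hc', hgood⟩ := ih _ hlt (insert v U) (Function.update c v b) rfl (by
        intro w hw
        rcases mem_insert.mp hw with rfl | hw
        · refine hb.trans (card_le_card ?_)
          intro u hu
          rw [mem_filter, mem_inter] at hu ⊢
          rw [Function.update_self, Function.update_of_ne (hne u hu.1.2)]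
          exact ⟨⟨hu.1.1, mem_insert_of_mem hu.1.2⟩, hu.2⟩
        · refine (hU w hw).trans (card_le_card ?_)
          intro u hu
          rw [mem_filter, mem_inter] at hu ⊢
          rw [Function.update_of_ne (hne w hw), Function.update_of_ne (hne u hu.1.2)]
          exact ⟨⟨hu.1.1, mem_insert_of_mem hu.1.2⟩, hu.2⟩)
      refine ⟨c', ?_, hgood⟩
      intro u hu
      rw [hc' u (mem_insert_of_mem hu), Function.update_of_ne (hne u hu)]
    · push Not at hex
      let b0 : C := Classical.arbitrary C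
      refine ⟨fun v => if v ∈ U then c v else b0, ?_, ?_⟩
      · intro v hv
        simp [hv]
      · intro v
        by_cases hv : v ∈ U
        · refine (hU v hv).trans (card_le_card ?_)
          intro u hu
          rw [mem_filter, mem_inter] at hu
          rw [mem_filter]
          simp only [hv, hu.1.2, if_true]
          exact ⟨hu.1.1, hu.2⟩
        · have h1 : (N v).card ≤ ((N v).filter
              (fun u => (if u ∈ U then c u else b0) = (if v ∈ U then c v else b0))).card +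
              ((univ : Finset C).erase b0).card * (s - 1) := by
            have hsub : N v ⊆ ((N v).filter
              (fun u => (if u ∈ U then c u else b0) = (if v ∈ U then c v else b0))) ∪
              ((univ : Finset C).erase b0).biUnion
                (fun b => (N v ∩ U).filter (fun u => c u = b)) := by
              intro u hu
              by_cases hcu : u ∈ U ∧ c u ≠ b0
              · exact mem_union_right _ (mem_biUnion.mpr ⟨c u, mem_erase.mpr ⟨hcu.2, mem_univ _⟩,
                  mem_filter.mpr ⟨mem_inter.mpr ⟨hu, hcu.1⟩, rfl⟩⟩)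
              · refine mem_union_left _ (mem_filter.mpr ⟨hu, ?_⟩)
                rw [if_neg hv]
                by_cases huU : u ∈ U
                · rw [if_pos huU]
                  by_contra h
                  exact hcu ⟨huU, h⟩
                · rw [if_neg huU]
            refine (card_le_card hsub).trans ((card_union_le _ _).trans ?_)
            refine Nat.add_le_add_left ?_ _
            refine card_biUnion_le.trans ?_
            calc _ ≤ ∑ _b ∈ (univ : Finset C).erase b0, (s - 1) := by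
                  refine sum_le_sum (fun b _ => ?_)
                  have := hex v hv b
                  omega
              _ = _ := by rw [sum_const, smul_eq_mul]
          rw [card_erase_of_mem (mem_univ _), card_univ] at h1
          have h2 := hdeg v
          obtain ⟨r, hr⟩ : ∃ r, Fintype.card C = r + 1 :=
            ⟨Fintype.card C - 1, by have : 0 < Fintype.card C := Fintype.card_pos; omega⟩
          obtain ⟨t, rfl⟩ : ∃ t, s = t + 1 := ⟨s - 1, by omega⟩
          rw [hr] at h1 hd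
          simp only [Nat.add_sub_cancel] at h1
          have h3 : (r + 1) * (t + 1) = r * t + r + t + 1 := by ring
          change t + 1 ≤ ((N v).filter
              (fun u => (if u ∈ U then c u else b0) = (if v ∈ U then c v else b0))).card
          omega

omit [Fintype V] [DecidableEq V] in
theorem card_filter_subtype (W : Finset V) (p : V → Prop) [DecidablePred p] :
    ((univ : Finset W).filter (fun u => p u.1)).card = (W.filter p).card := by
  refine card_bij (fun u _ => u.1) ?_ ?_ ?_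
  · intro u hu
    exact mem_filter.mpr ⟨u.2, (mem_filter.mp hu).2⟩
  · intro u _ v _ h
    exact Subtype.ext h
  · intro u hu
    rw [mem_filter] at hu
    exact ⟨⟨u, hu.1⟩, mem_filter.mpr ⟨mem_univ _, hu.2⟩, rfl⟩

/-- the out-neighbours inside `W` -/
def resN (N : V → Finset V) (W : Finset V) (v : W) : Finset W :=
  univ.filter (fun u => u.1 ∈ N v.1)

omit [Fintype V] in
theorem mem_resN (N : V → Finset V) (W : Finset V) (v u : W) :
    u ∈ resN N W v ↔ u.1 ∈ N v.1 := by
  unfold resN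
  simp

omit [Fintype V] in
theorem card_resN (N : V → Finset V) (W : Finset V) (v : W) :
    (resN N W v).card = (N v.1 ∩ W).card := by
  unfold resN
  rw [card_filter_subtype W (fun u => u ∈ N v.1)]
  congr 1
  ext u
  simp [and_comm]

/-- a smallest set which keeps the outdegrees -/
theorem exists_min_sub [Nonempty V] (N : V → Finset V) (d : ℕ) (hdeg : ∀ v, d ≤ (N v).card) :
    ∃ W : Finset V, W.Nonempty ∧ (∀ v : W, d ≤ (resN N W v).card) ∧
      ∀ K : Finset W, K.Nonempty → K ≠ univ → ∃ z ∉ K, (resN N W z \ K).card < d := by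
  classical
  let S : Finset (Finset V) := univ.filter (fun W => W.Nonempty ∧ ∀ v ∈ W, d ≤ (N v ∩ W).card)
  have hS : S.Nonempty := ⟨univ, mem_filter.mpr ⟨mem_univ _, univ_nonempty,
    fun v _ => by rw [inter_univ]; exact hdeg v⟩⟩
  obtain ⟨W, hWS, hWmin⟩ := exists_min_image S card hS
  obtain ⟨-, hWne, hWdeg⟩ := mem_filter.mp hWS
  refine ⟨W, hWne, fun v => by rw [card_resN]; exact hWdeg v.1 v.2, ?_⟩
  intro K hK hKne
  set W' := W \ K.map (Function.Embedding.subtype _) with hW'
  have hW'ne : W'.Nonempty := by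
    obtain ⟨z, hz⟩ : ∃ z, z ∉ K := by
      by_contra h
      push Not at h
      exact hKne (eq_univ_iff_forall.mpr h)
    refine ⟨z.1, mem_sdiff.mpr ⟨z.2, ?_⟩⟩
    intro h
    obtain ⟨w, hw, hwz⟩ := mem_map.mp h
    have : w = z := Subtype.ext hwz
    exact hz (this ▸ hw)
  have hlt : W'.card < W.card := by
    refine card_lt_card (Finset.ssubset_iff_subset_ne.mpr ⟨sdiff_subset, ?_⟩)
    intro he
    obtain ⟨w, hw⟩ := hK
    have h1 : w.1 ∈ W' := by rw [he]; exact w.2
    exact (mem_sdiff.mp h1).2 (mem_map.mpr ⟨w, hw, rfl⟩)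
  have hnot : W' ∉ S := fun h => absurd (hWmin W' h) (not_le.mpr hlt)
  have : ∃ z ∈ W', (N z ∩ W').card < d := by
    by_contra h
    push Not at h
    exact hnot (mem_filter.mpr ⟨mem_univ _, hW'ne, h⟩)
  obtain ⟨z, hz, hzd⟩ := this
  obtain ⟨hzW, hzK⟩ := mem_sdiff.mp hz
  refine ⟨⟨z, hzW⟩, fun h => hzK (mem_map.mpr ⟨⟨z, hzW⟩, h, rfl⟩), ?_⟩
  refine lt_of_le_of_lt ?_ hzd
  refine card_le_card_of_injOn (fun u => u.1) ?_ (fun u _ v _ h => Subtype.ext h)
  intro u hu
  have hu := mem_coe.mp hu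
  obtain ⟨hu1, hu2⟩ := mem_sdiff.mp hu
  refine mem_coe.mpr (mem_inter.mpr ⟨(mem_resN N W _ u).mp hu1, mem_sdiff.mpr ⟨u.2, ?_⟩⟩)
  intro h
  obtain ⟨w, hw, hwz⟩ := mem_map.mp h
  have : w = u := Subtype.ext hwz
  exact hu2 (this ▸ hw)

/-- a colouring of `W` extends -/
theorem split_transfer (N : V → Finset V) (s d : ℕ) (hs : 1 ≤ s) (hds : Fintype.card C * s ≤ d)
    (hdeg : ∀ v, d ≤ (N v).card) (W : Finset V) (c : W → C)
    (hc : ∀ v : W, s ≤ ((resN N W v).filter (fun u => c u = c v)).card) (hall : ∀ b, ∃ v, c v = b) :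
    ∃ c : V → C, (∀ v, s ≤ ((N v).filter (fun u => c u = c v)).card) ∧ ∀ b, ∃ v, c v = b := by
  classical
  let c0 : V → C := fun v => if h : v ∈ W then c ⟨v, h⟩ else Classical.arbitrary C
  have hc0 : ∀ v (h : v ∈ W), c0 v = c ⟨v, h⟩ := fun v h => by simp [c0, h]
  have hcount : ∀ v ∈ W, s ≤ ((N v ∩ W).filter (fun u => c0 u = c0 v)).card := by
    intro v h
    refine (hc ⟨v, h⟩).trans ?_
    refine card_le_card_of_injOn (fun u => u.1) ?_ (fun u _ v _ h => Subtype.ext h)
    intro u hu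
    have hu := mem_coe.mp hu
    obtain ⟨hu1, hu2⟩ := mem_filter.mp hu
    refine mem_coe.mpr (mem_filter.mpr ⟨mem_inter.mpr ⟨(mem_resN N W _ u).mp hu1, u.2⟩, ?_⟩)
    rw [hc0 u.1 u.2, hc0 v h]
    exact hu2
  obtain ⟨c', hc', hgood⟩ := ext_aux N s d hs hds hdeg _ W c0 rfl hcount
  refine ⟨c', hgood, ?_⟩
  intro b
  obtain ⟨v, hv⟩ := hall b
  exact ⟨v.1, by rw [hc' v.1 v.2, hc0 v.1 v.2]; exact hv⟩

omit [Fintype V] in
/-- legs in `W` are legs in `V` -/
theorem legs_transfer (N : V → Finset V) (W : Finset V) (ℓ m : ℕ) (y : W) (P : Finset W)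
    (K : W → Finset W) (hL : IsLegs (resN N W) ℓ m y P K) :
    ∃ P' K', IsLegs N ℓ m y.1 P' K' := by
  classical
  let K' : V → Finset V := fun v => if h : v ∈ W then
    (K ⟨v, h⟩).map (Function.Embedding.subtype _) else ∅
  have hK' : ∀ v : W, K' v.1 = (K v).map (Function.Embedding.subtype _) := by
    intro v
    simp [K', v.2]
  refine ⟨P.map (Function.Embedding.subtype _), K', ?_⟩
  refine ⟨?_, ?_, ?_, ?_, ?_, ?_, ?_, ?_⟩
  · rw [card_map]; exact hL.card
  · intro v hv
    obtain ⟨w, hw, rfl⟩ := mem_map.mp hv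
    change w.1 ∈ K' w.1
    rw [hK']
    exact mem_map.mpr ⟨w, hL.mem w hw, rfl⟩
  · intro v hv
    obtain ⟨w, hw, rfl⟩ := mem_map.mp hv
    change (K' w.1).card = ℓ
    rw [hK', card_map]
    exact hL.size w hw
  · intro v hv
    obtain ⟨w, hw, rfl⟩ := mem_map.mp hv
    change y.1 ∉ K' w.1
    rw [hK']
    intro h
    obtain ⟨x, hx, hxy⟩ := mem_map.mp h
    have : x = y := Subtype.ext hxy
    exact hL.notMem w hw (this ▸ hx)
  · intro v hv
    obtain ⟨w, hw, rfl⟩ := mem_map.mp hv
    exact (mem_resN N W _ _).mp (hL.adj w hw)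
  · intro v hv
    obtain ⟨w, hw, rfl⟩ := mem_map.mp hv
    change Reaches N (K' w.1) w.1
    rw [hK']
    intro x hx
    obtain ⟨z, hz, rfl⟩ := mem_map.mp hx
    have := hL.reach w hw z hz
    change Relation.ReflTransGen _ z.1 w.1
    clear hx
    induction this using Relation.ReflTransGen.head_induction_on with
    | refl => exact Relation.ReflTransGen.refl
    | head hab _ ih =>
      refine Relation.ReflTransGen.head ?_ (ih hab.2.1)
      exact ⟨mem_map.mpr ⟨_, hab.1, rfl⟩, mem_map.mpr ⟨_, hab.2.1, rfl⟩,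
        (mem_resN N W _ _).mp hab.2.2⟩
  · intro u hu v hv huv
    obtain ⟨a, ha, rfl⟩ := mem_map.mp hu
    obtain ⟨b, hb, rfl⟩ := mem_map.mp hv
    change Disjoint (K' a.1) (K' b.1)
    rw [hK', hK', disjoint_map]
    exact hL.disj a ha b hb (fun h => huv (by rw [h]))
  · intro u hu v hv huv x hx z hz
    obtain ⟨a, ha, rfl⟩ := mem_map.mp hu
    obtain ⟨b, hb, rfl⟩ := mem_map.mp hv
    change x ∈ K' a.1 at hx
    change z ∈ K' b.1 at hz
    rw [hK'] at hx hz
    obtain ⟨x', hx', rfl⟩ := mem_map.mp hx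
    obtain ⟨z', hz', rfl⟩ := mem_map.mp hz
    intro h
    exact hL.anti a ha b hb (fun h => huv (by rw [h])) x' hx' z' hz'
      ((mem_resN N W _ _).mpr h)

theorem split_or_legs [Nonempty V] (N : V → Finset V) (hN : ∀ v, v ∉ N v) (s d ℓ m : ℕ)
    (hs : 1 ≤ s) (hd : 1 ≤ d) (hℓ : 1 ≤ ℓ) (hm : 1 ≤ m) (hℓd : ℓ ≤ d)
    (hds : Fintype.card C * s ≤ d)
    (hcond : 8 * (3 * m * (ℓ * (d + ℓ) ^ ℓ)) * d ^ 3 *
      (Fintype.card C * few (Fintype.card C) s d) ≤ Fintype.card C ^ d)
    (hdeg : ∀ v, d ≤ (N v).card) :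
    (∃ c : V → C, (∀ v, s ≤ ((N v).filter (fun u => c u = c v)).card) ∧ ∀ b, ∃ v, c v = b) ∨
    ∃ y P K, IsLegs N ℓ m y P K := by
  classical
  obtain ⟨W, hWne, hdeg', hmin'⟩ := exists_min_sub N d hdeg
  have hN' : ∀ v, v ∉ resN N W v := fun v h => hN v.1 ((mem_resN N W v v).mp h)
  have : Nonempty W := hWne.to_subtype
  have hk : 1 ≤ 3 * m * (ℓ * (d + ℓ) ^ ℓ) := by
    have : 0 < 3 * m * (ℓ * (d + ℓ) ^ ℓ) := by positivity
    omega
  rcases main_aux (C := C) (resN N W) hN' s d (3 * m * (ℓ * (d + ℓ) ^ ℓ)) hd hk hcond hdeg' with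
    ⟨c, hc⟩ | ⟨I, Y, hY, hIY, hind, hdist, hlarge, hfew⟩
  · left
    refine split_transfer N s d hs hds hdeg W c (fun v => hc v (c v)) ?_
    intro b
    obtain ⟨v⟩ := ‹Nonempty W›
    have h2 : ((resN N W v).filter (fun u => c u = b)).Nonempty :=
      card_pos.mp (lt_of_lt_of_le (by omega) (hc v b))
    obtain ⟨u, hu⟩ := h2
    exact ⟨u, (mem_filter.mp hu).2⟩
  · right
    have hℓV : ℓ ≤ Fintype.card W := by
      obtain ⟨v⟩ := ‹Nonempty W›
      calc ℓ ≤ d := hℓd
        _ ≤ (resN N W v).card := hdeg' v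
        _ ≤ _ := card_le_univ _
    obtain ⟨y, -, P, K, hL⟩ := exists_legs (resN N W) d ℓ m hd hℓ hm hℓV hdeg' hmin' I Y hlarge hfew
    obtain ⟨P', K', hL'⟩ := legs_transfer N W ℓ m y P K hL
    exact ⟨y.1, P', K', hL'⟩

/-- If all vertices with many legs belong to a not too large set, then the digraph splits. -/
theorem split_of_few_hubs [Nonempty V] (N : V → Finset V) (hN : ∀ v, v ∉ N v) (d r σ ℓ m : ℕ)
    (hr : 3 ≤ r) (hσ : 1 ≤ σ) (hℓ : 1 ≤ ℓ) (hm : 1 ≤ m) (hℓd : ℓ ≤ d)
    (hσd : 2 * r * σ < d)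
    (hcond : 16 * (r + 1) * (3 * m * (ℓ * (d + ℓ) ^ ℓ)) * d * σ ^ 2 * (σ + 1) ≤ 2 ^ σ)
    (hdeg : ∀ v, d ≤ (N v).card) (hub : Finset V)
    (hhub : ∀ y P K, IsLegs N ℓ m y P K → y ∈ hub)
    (hcard : (2 * hub.card) ^ r < (2 ^ (r - 1)) ^ (d - 2 * r * σ)) :
    ∃ c : V → Bool, (∀ v, 2 ≤ ((N v).filter (fun u => c u = c v)).card) ∧ ∀ b, ∃ v, c v = b := by
  classical
  have hrσ : 3 ≤ r * σ := by
    calc 3 ≤ r := hr
      _ ≤ r * σ := Nat.le_mul_of_pos_right _ hσ
  have hd : 4 ≤ d := by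
    have : 2 * r * σ = 2 * (r * σ) := by ring
    omega
  obtain ⟨W, hWne, hdeg', hmin'⟩ := exists_min_sub N d hdeg
  have hN' : ∀ v, v ∉ resN N W v := fun v h => hN v.1 ((mem_resN N W v v).mp h)
  have : Nonempty W := hWne.to_subtype
  have hk : 1 ≤ 3 * m * (ℓ * (d + ℓ) ^ ℓ) := by
    have : 0 < 3 * m * (ℓ * (d + ℓ) ^ ℓ) := by positivity
    omega
  let Y0 : Finset W := univ.filter (fun y => y.1 ∈ hub)
  have hY0 : Y0.card ≤ hub.card := by
    refine card_le_card_of_injOn (fun u => u.1) ?_ (fun u _ v _ h => Subtype.ext h)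
    intro u hu
    exact mem_coe.mpr (mem_filter.mp (mem_coe.mp hu)).2
  have hcard' : (2 * Y0.card) ^ r < (2 ^ (r - 1)) ^ (d - 2 * r * σ) := by
    refine lt_of_le_of_lt ?_ hcard
    exact Nat.pow_le_pow_left (Nat.mul_le_mul_left _ hY0) r
  rcases hub_main (resN N W) hN' d (3 * m * (ℓ * (d + ℓ) ^ ℓ)) r σ hr hσ hk hσd hcond hdeg' Y0
      hcard' with ⟨c, hc, hall⟩ | ⟨I, Y, hY, hYY0, hIY, hind, hdist, hlarge, hfew⟩
  · refine split_transfer N 2 d (by norm_num) ?_ hdeg W c hc hall
    rw [Fintype.card_bool]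
    omega
  · exfalso
    have hℓV : ℓ ≤ Fintype.card W := by
      obtain ⟨v⟩ := ‹Nonempty W›
      calc ℓ ≤ d := hℓd
        _ ≤ (resN N W v).card := hdeg' v
        _ ≤ _ := card_le_univ _
    obtain ⟨y, hyY, P, K, hL⟩ := exists_legs (resN N W) d ℓ m (by omega) hℓ hm hℓV hdeg' hmin'
      I Y hlarge hfew
    obtain ⟨P', K', hL'⟩ := legs_transfer N W ℓ m y P K hL
    exact disjoint_left.mp hYY0 hyY (mem_filter.mpr ⟨mem_univ _, hhub y.1 P' K' hL'⟩)

end Pool.Agent.Lib_MP_e12783_co
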